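import Mathlib

/-! The eigenvalues of a complex matrix of finite order. -/

set_option autoImplicit false

namespace Pool.Agent.D0H40.AR

open Matrix Polynomial

variable {d : ℕ}

/-- the characteristic polynomial in terms of `det (1 - x M)` -/
theorem charpoly_of_det {M : Matrix (Fin d) (Fin d) ℂ} {α : Fin d → ℂ}
    (h : ∀ x : ℂ, (1 - x • M).det = ∏ j, (1 - α j * x)) : M.charpoly = ∏ j, (X - C (α j)) := by
  refine Polynomial.eq_of_infinite_eval_eq _ _ ?_
  refine (Set.infinite_of_finite_compl (s := {x : ℂ | x ≠ 0}) ?_).mono ?_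
  · have : {x : ℂ | x ≠ 0}ᶜ = {0} := by
      ext x
      simp
    rw [this]
    exact Set.finite_singleton _
  · intro x hx
    have hx0 : x ≠ 0 := hx
    show eval x M.charpoly = eval x (∏ j, (X - C (α j)))
    rw [Matrix.eval_charpoly, Polynomial.eval_prod]
    have h1 : (Matrix.scalar (Fin d)) x - M = x • (1 - x⁻¹ • M) := by
      rw [smul_sub, smul_smul, mul_inv_cancel₀ hx0, one_smul, Matrix.smul_one_eq_diagonal]
      rfl
    rw [h1, Matrix.det_smul, h, Fintype.card_fin, ← Fin.prod_const, ← Finset.prod_mul_distrib]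
    refine Finset.prod_congr rfl fun j _ => ?_
    rw [Polynomial.eval_sub, Polynomial.eval_X, Polynomial.eval_C]
    field_simp

theorem trace_of_det {M : Matrix (Fin d) (Fin d) ℂ} {α : Fin d → ℂ}
    (h : ∀ x : ℂ, (1 - x • M).det = ∏ j, (1 - α j * x)) : M.trace = ∑ j, α j := by
  rw [Matrix.trace_eq_sum_roots_charpoly, charpoly_of_det h]
  have h1 : (∏ j, (X - C (α j))) = (Multiset.map (fun a => X - C a) (Multiset.map α Finset.univ.val)).prod := by
    rw [Multiset.map_map]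
    rfl
  rw [h1, Polynomial.roots_multiset_prod_X_sub_C]
  rfl

theorem sq_of_det {M : Matrix (Fin d) (Fin d) ℂ} {α : Fin d → ℂ}
    (h : ∀ x : ℂ, (1 - x • M).det = ∏ j, (1 - α j * x)) (x : ℂ) :
    (1 - x • (M ^ 2)).det = ∏ j, (1 - α j ^ 2 * x) := by
  obtain ⟨y, hy⟩ := IsAlgClosed.exists_pow_nat_eq x (n := 2) (by norm_num)
  have h1 : (1 : Matrix (Fin d) (Fin d) ℂ) - x • (M ^ 2) = (1 - y • M) * (1 - (-y) • M) := by
    rw [← hy]
    simp only [neg_smul, sub_neg_eq_add]
    rw [mul_add, sub_mul, sub_mul, one_mul, mul_one, one_mul, smul_mul_smul_comm, ← pow_two, ← pow_two]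
    abel
  rw [h1, Matrix.det_mul, h, h, ← Finset.prod_mul_distrib]
  refine Finset.prod_congr rfl fun j _ => ?_
  rw [← hy]
  ring

theorem exists_eig (M : Matrix (Fin d) (Fin d) ℂ) : ∃ α : Fin d → ℂ,
    ∀ x : ℂ, (1 - x • M).det = ∏ j, (1 - α j * x) := by
  obtain ⟨α, hα⟩ : ∃ α : Fin d → ℂ, M.charpoly = ∏ j, (X - C (α j)) := by
    have h1 := IsAlgClosed.splits M.charpoly
    have h2 : M.charpoly.roots.card = d := by
      rw [Polynomial.splits_iff_card_roots.1 h1, Matrix.charpoly_natDegree_eq_dim, Fintype.card_fin]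
    have h3 := h1.eq_prod_roots_of_monic M.charpoly_monic
    set l := M.charpoly.roots.toList with hl
    have h4 : l.length = d := by
      rw [hl, Multiset.length_toList, h2]
    refine ⟨fun j => l.get (j.cast h4.symm), ?_⟩
    nth_rewrite 1 [h3]
    rw [← Multiset.coe_toList M.charpoly.roots, ← hl, Multiset.map_coe, Multiset.prod_coe, ← List.prod_ofFn]
    congr 1
    refine List.ext_get (by simp [h4]) fun n h1 h2 => ?_
    simp
  refine ⟨α, fun x => ?_⟩
  rcases eq_or_ne x 0 with rfl | hx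
  · simp
  · have h1 : (1 : Matrix (Fin d) (Fin d) ℂ) - x • M = x • ((Matrix.scalar (Fin d)) x⁻¹ - M) := by
      rw [smul_sub]
      congr 1
      have : (Matrix.scalar (Fin d)) x⁻¹ = x⁻¹ • (1 : Matrix (Fin d) (Fin d) ℂ) := by
        rw [Matrix.smul_one_eq_diagonal]
        rfl
      rw [this, smul_smul, mul_inv_cancel₀ hx, one_smul]
    rw [h1, Matrix.det_smul, Fintype.card_fin, ← Matrix.eval_charpoly, hα, Polynomial.eval_prod,
      ← Fin.prod_const, ← Finset.prod_mul_distrib]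
    refine Finset.prod_congr rfl fun j _ => ?_
    rw [Polynomial.eval_sub, Polynomial.eval_X, Polynomial.eval_C]
    field_simp

theorem norm_eig {M : Matrix (Fin d) (Fin d) ℂ} {n : ℕ} (hn : 0 < n) (hM : M ^ n = 1) {α : Fin d → ℂ}
    (h : ∀ x : ℂ, (1 - x • M).det = ∏ j, (1 - α j * x)) (j : Fin d) : ‖α j‖ = 1 := by
  have h1 : IsRoot M.charpoly (α j) := by
    rw [charpoly_of_det h, Polynomial.IsRoot, Polynomial.eval_prod]
    exact Finset.prod_eq_zero (Finset.mem_univ j) (by simp)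
  have h2 : α j ∈ spectrum ℂ M := Matrix.mem_spectrum_iff_isRoot_charpoly.2 h1
  have h3 : α j ^ n ∈ spectrum ℂ (M ^ n) := spectrum.pow_mem_pow M n h2
  have : Nonempty (Fin d) := ⟨j⟩
  rw [hM, spectrum.one_eq] at h3
  have h4 : α j ^ n = 1 := h3
  exact Complex.norm_eq_one_of_pow_eq_one h4 hn.ne'

/-- **The eigenvalues of a matrix of finite order.** -/
theorem eig {M : Matrix (Fin d) (Fin d) ℂ} {n : ℕ} (hn : 0 < n) (hM : M ^ n = 1) : ∃ α : Fin d → ℂ,
    (∀ j, ‖α j‖ = 1) ∧ (∀ x : ℂ, (1 - x • M).det = ∏ j, (1 - α j * x)) ∧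
    M.trace = ∑ j, α j ∧ (M ^ 2).trace = ∑ j, α j ^ 2 := by
  obtain ⟨α, hα⟩ := exists_eig M
  exact ⟨α, norm_eig hn hM hα, hα, trace_of_det hα, trace_of_det (sq_of_det hα)⟩

end Pool.Agent.D0H40.AR
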