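import Pool.Agent.W401.Cheb.Main

/-! The mean value of a class function at the Frobenius elements. -/

set_option autoImplicit false

namespace Pool.Agent.D0H40.AR

open NumberField Filter Topology
open Pool.Agent.W401.Cheb

variable {L : Type} [Field L] [NumberField L]

/-- `σ` is a Frobenius element at `p`: there is a maximal ideal `Q` of `𝓞 L` which contains `p` such that
`σ x ≡ x^p` modulo `Q` for all `x ∈ 𝓞 L` -/
def IsFr (p : ℕ) (σ : Gal(L/ℚ)) : Prop :=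
  ∃ Q : Ideal (𝓞 L), Q.IsMaximal ∧ (p : 𝓞 L) ∈ Q ∧ ∀ x : 𝓞 L, σ • x - x ^ p ∈ Q

theorem hasFrob_of {p : ℕ} [hp : Fact p.Prime] {σ : Gal(L/ℚ)} (h : IsFr p σ) :
    ∃ φ : 𝓞 L →+* AlgebraicClosure (ZMod p), HasFrob p φ σ := by
  obtain ⟨Q, hQ, hpQ, hx⟩ := h
  let _ : Field (𝓞 L ⧸ Q) := Ideal.Quotient.field Q
  have hp0 : (p : 𝓞 L) ≠ 0 := by exact_mod_cast hp.out.ne_zero
  have hQ0 : Q ≠ ⊥ := by
    rintro rfl
    exact hp0 ((Submodule.mem_bot _).1 hpQ)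
  have hfin : Finite (𝓞 L ⧸ Q) := Ideal.finiteQuotientOfFreeOfNeBot Q hQ0
  have hchar : CharP (𝓞 L ⧸ Q) p := by
    have h1 : ((p : ℕ) : 𝓞 L ⧸ Q) = 0 := by
      have := Ideal.Quotient.eq_zero_iff_mem.2 hpQ
      rwa [map_natCast] at this
    exact (CharP.charP_iff_prime_eq_zero hp.out).2 h1
  let _ : Algebra (ZMod p) (𝓞 L ⧸ Q) := ZMod.algebra (𝓞 L ⧸ Q) p
  have halg : Algebra.IsAlgebraic (ZMod p) (𝓞 L ⧸ Q) := by
    have : Module.Finite (ZMod p) (𝓞 L ⧸ Q) := Module.Finite.of_finite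
    exact Algebra.IsAlgebraic.of_finite _ _
  let f : (𝓞 L ⧸ Q) →ₐ[ZMod p] AlgebraicClosure (ZMod p) := IsAlgClosed.lift
  refine ⟨(f : (𝓞 L ⧸ Q) →+* _).comp (Ideal.Quotient.mk Q), fun x => ?_⟩
  have h1 : Ideal.Quotient.mk Q (σ • x) = Ideal.Quotient.mk Q x ^ p := by
    rw [← map_pow, Ideal.Quotient.eq]
    exact hx x
  rw [RingHom.comp_apply, RingHom.comp_apply, h1, map_pow]

variable [IsGalois ℚ L]

theorem sum_xp_fun {p : ℕ} [Fact p.Prime] (h : TorAt L p) {φ : 𝓞 L →+* AlgebraicClosure (ZMod p)}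
    {τ : Gal(L/ℚ)} (hτ : HasFrob p φ τ) (ψ : Gal(L/ℚ) → ℝ) (hψ : ∀ g h, ψ (h⁻¹ * g * h) = ψ g) :
    ∑ g : Gal(L/ℚ), ψ g * (xp L g p : ℝ) = Nat.card Gal(L/ℚ) * ψ τ := by
  classical
  have h1 : ∀ g : Gal(L/ℚ), ψ g * (xp L g p : ℝ) =
      ∑ σ ∈ Finset.univ.filter (fun σ : Gal(L/ℚ) => σ⁻¹ * τ * σ = g), ψ τ := by
    intro g
    rw [xp_eq h hτ, Finset.sum_const, nsmul_eq_mul, Nat.card_eq_fintype_card, Fintype.card_subtype]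
    rcases (Finset.univ.filter (fun σ : Gal(L/ℚ) => σ⁻¹ * τ * σ = g)).eq_empty_or_nonempty with h2 | ⟨σ, h2⟩
    · rw [h2]
      simp
    · have h3 := (Finset.mem_filter.1 h2).2
      rw [← h3, hψ, mul_comm]
  rw [Finset.sum_congr rfl fun g _ => h1 g,
    Finset.sum_fiberwise (s := Finset.univ) (g := fun σ : Gal(L/ℚ) => σ⁻¹ * τ * σ) (f := fun _ => ψ τ),
    Finset.sum_const, nsmul_eq_mul, Finset.card_univ, Nat.card_eq_fintype_card]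

/-- **Chebotarev's theorem for class functions.** -/
theorem frob_mean (fr : ℕ → Gal(L/ℚ)) {D₀ : ℕ} (hD₀ : 0 < D₀)
    (hfr : ∀ p : ℕ, p.Prime → ¬ p ∣ D₀ → IsFr p (fr p)) (ψ : Gal(L/ℚ) → ℝ)
    (hψ : ∀ g h, ψ (h⁻¹ * g * h) = ψ g) (b : ℕ → ℝ)
    (hb : ∀ p : ℕ, p.Prime → ¬ p ∣ D₀ → b p = ψ (fr p)) :
    Tendsto (M b) atTop (𝓝 ((∑ g, ψ g) / Nat.card Gal(L/ℚ))) := by
  obtain ⟨D₁, hD₁, htor⟩ := torsor L
  have hcard : (Nat.card Gal(L/ℚ) : ℝ) ≠ 0 := by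
    have : 0 < Nat.card Gal(L/ℚ) := Nat.card_pos
    exact_mod_cast this.ne'
  set a : ℕ → ℝ := fun p => (Nat.card Gal(L/ℚ) : ℝ)⁻¹ * ∑ g : Gal(L/ℚ), ψ g * (xp L g p : ℝ) with ha
  have h1 : Tendsto (M a) atTop (𝓝 ((∑ g, ψ g) / Nat.card Gal(L/ℚ))) := by
    have h2 : Tendsto (fun N => (Nat.card Gal(L/ℚ) : ℝ)⁻¹ *
        ∑ g : Gal(L/ℚ), ψ g * M (fun p => (xp L g p : ℝ)) N) atTop
        (𝓝 ((Nat.card Gal(L/ℚ) : ℝ)⁻¹ * ∑ g : Gal(L/ℚ), ψ g * 1)) := by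
      refine Tendsto.const_mul _ (tendsto_finsetSum _ fun g _ => Tendsto.const_mul _ ?_)
      exact chebotarev L g
    have e : (Nat.card Gal(L/ℚ) : ℝ)⁻¹ * ∑ g : Gal(L/ℚ), ψ g * 1 =
        (∑ g, ψ g) / Nat.card Gal(L/ℚ) := by
      simp only [mul_one]
      rw [div_eq_inv_mul]
    rw [e] at h2
    refine h2.congr fun N => ?_
    rw [ha, M_smul, M_sum]
    congr 1
    refine Finset.sum_congr rfl fun g _ => ?_
    rw [M_smul]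
  refine M_congr (D := D₀ * D₁) (Nat.mul_pos hD₀ hD₁) (fun p hp hpD => ?_) h1
  have hp0 : ¬ p ∣ D₀ := fun h => hpD (h.mul_right _)
  have hp1 : ¬ p ∣ D₁ := fun h => hpD (h.mul_left _)
  have : Fact p.Prime := ⟨hp⟩
  obtain ⟨φ, hφ⟩ := hasFrob_of (hfr p hp hp0)
  rw [hb p hp hp0, ha]
  simp only
  rw [sum_xp_fun (htor p hp1) hφ ψ hψ]
  field_simp

end Pool.Agent.D0H40.AR
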