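import Pool.Agent.D0H40.AR.MeanLog

/-! The sums of logarithms and the character sums. -/

set_option autoImplicit false

namespace Pool.Agent.D0H40.AR

open Complex MeasureTheory Filter Topology Set
open Pool.Agent.D0H40.CX
open Pool.Agent.W401.Cheb (pr M mem_pr tendsto_pc)

variable {G : ℕ → Prop} {d : ℕ} {α : ℕ → Fin d → ℂ} {k : ℝ}

theorem logTaylor_three (z : ℂ) : Complex.logTaylor 3 z = z - z ^ 2 / 2 := by
  rw [Complex.logTaylor_succ, Complex.logTaylor_succ, Complex.logTaylor_succ]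
  simp [Complex.logTaylor_zero]
  ring

theorem log_expand {z : ℂ} (hz : ‖z‖ ≤ 1 / 2) :
    |Real.log ‖1 - z‖ + z.re + (z ^ 2).re / 2| ≤ ‖z‖ ^ 3 := by
  have h1 : ‖-z‖ < 1 := by
    rw [norm_neg]
    linarith
  have h2 := Complex.norm_log_sub_logTaylor_le 2 h1
  rw [show (2 + 1 : ℕ) = 3 from rfl, logTaylor_three, norm_neg, ← sub_eq_add_neg] at h2
  have h3 : ‖z‖ ^ 3 * (1 - ‖z‖)⁻¹ / ((2 : ℕ) + 1) ≤ ‖z‖ ^ 3 := by
    have h4 : (1 - ‖z‖)⁻¹ ≤ 2 := by
      rw [inv_le_comm₀ (by linarith) (by norm_num)]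
      linarith
    have h5 : 0 ≤ ‖z‖ ^ 3 := by positivity
    have h6 : ‖z‖ ^ 3 * (1 - ‖z‖)⁻¹ ≤ ‖z‖ ^ 3 * 2 := mul_le_mul_of_nonneg_left h4 h5
    push_cast
    rw [div_le_iff₀ (by norm_num)]
    linarith
  have h7 := (Complex.abs_re_le_norm _).trans (h2.trans h3)
  have e : (log (1 - z) - (-z - (-z) ^ 2 / 2)).re = Real.log ‖1 - z‖ + z.re + (z ^ 2).re / 2 := by
    have h8 : ((-z) ^ 2 / 2).re = (z ^ 2).re / 2 := by
      rw [neg_sq]
      have : z ^ 2 / 2 = z ^ 2 / ((2 : ℝ) : ℂ) := by push_cast; rfl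
      rw [this, Complex.div_ofReal_re]
    rw [Complex.sub_re, Complex.sub_re, Complex.log_re, h8, Complex.neg_re]
    ring
  rwa [e] at h7

/-- the term of the character sum -/
noncomputable def ssum (α : ℕ → Fin d → ℂ) (p : ℕ) : ℝ := (∑ j, α p j).re * dn p

/-- the sum of the squares of the parameters -/
noncomputable def bsq (α : ℕ → Fin d → ℂ) (p : ℕ) : ℝ := (∑ j, α p j ^ 2).re

theorem Par.expand (H : Par G α) {p : ℕ} (hp : G p) :
    |lsum α p + ssum α p + bsq α p / p / 2| ≤ d * (p : ℝ) ^ (-(3 / 2) : ℝ) := by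
  have h5 := H.five p hp
  have e : lsum α p + ssum α p + bsq α p / p / 2 = ∑ j, (Real.log ‖1 - α p j * dn p‖ +
      (α p j * dn p).re + ((α p j * dn p) ^ 2).re / 2) := by
    have h1 : ∀ j, ((α p j * dn p) ^ 2).re = (α p j ^ 2).re / p := by
      intro j
      rw [mul_pow, ← Complex.ofReal_pow, dn_sq, Complex.re_mul_ofReal, div_eq_mul_inv]
    have h2 : ∀ j, (α p j * dn p).re = (α p j).re * dn p := fun j => Complex.re_mul_ofReal _ _
    simp only [h1, h2]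
    rw [Finset.sum_add_distrib, Finset.sum_add_distrib]
    unfold lsum ssum bsq
    rw [Complex.re_sum, Complex.re_sum, Finset.sum_mul, Finset.sum_div, Finset.sum_div]
  rw [e]
  refine (Finset.abs_sum_le_sum_abs _ _).trans ?_
  have h3 : ∀ j ∈ (Finset.univ : Finset (Fin d)), |Real.log ‖1 - α p j * dn p‖ +
      (α p j * dn p).re + ((α p j * dn p) ^ 2).re / 2| ≤ (p : ℝ) ^ (-(3 / 2) : ℝ) := by
    intro j _
    have h4 : ‖α p j * dn p‖ = dn p := by
      rw [norm_mul, H.unit p hp j, one_mul, Complex.norm_real, Real.norm_of_nonneg (dn_nonneg p)]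
    have h6 := log_expand (z := α p j * dn p) (by rw [h4]; exact dn_le h5)
    rwa [h4, dn_cube] at h6
  refine (Finset.sum_le_sum h3).trans ?_
  rw [Finset.sum_const, Finset.card_univ, Fintype.card_fin, nsmul_eq_mul]

/-- the weighted sum of the logarithms -/
noncomputable def Lw (G : ℕ → Prop) (α : ℕ → Fin d → ℂ) (k τ X : ℝ) : ℂ :=
  ∑ p ∈ up G X, wt k τ X p * (lsum α p : ℝ)

/-- the weighted character sum -/
noncomputable def Sw (G : ℕ → Prop) (α : ℕ → Fin d → ℂ) (k τ X : ℝ) : ℂ :=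
  ∑ p ∈ up G X, wt k τ X p * (ssum α p : ℝ)

open Classical in
/-- the squares of the parameters at the primes of the family -/
noncomputable def bG (G : ℕ → Prop) (α : ℕ → Fin d → ℂ) (p : ℕ) : ℝ := if G p then bsq α p else 0

theorem Par.bG_le (H : Par G α) (p : ℕ) : |bG G α p| ≤ d := by
  unfold bG
  split_ifs with hp
  · unfold bsq
    refine (Complex.abs_re_le_norm _).trans ((norm_sum_le _ _).trans ?_)
    have h1 : ∀ j ∈ (Finset.univ : Finset (Fin d)), ‖α p j ^ 2‖ ≤ 1 := by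
      intro j _
      rw [norm_pow, H.unit p hp j, one_pow]
    refine (Finset.sum_le_sum h1).trans ?_
    rw [Finset.sum_const, Finset.card_univ, Fintype.card_fin, nsmul_eq_mul, mul_one]
  · rw [abs_zero]
    exact Nat.cast_nonneg _

/-- **The comparison of the two sums.** -/
theorem Par.compare (H : Par G α) {ν : ℝ} (hν : Tendsto (M (bG G α)) atTop (𝓝 ν)) (hk : 1 < k) (τ : ℝ)
    {ε : ℝ} (hε : 0 < ε) : ∃ C : ℝ, ∀ᶠ X : ℝ in atTop,
    ‖Lw G α k τ X + Sw G α k τ X + (1 - 1 / k) * (ν / 2) * (Real.log (Real.log X) : ℝ)‖ ≤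
      ε * Real.log (Real.log X) + C := by
  classical
  obtain ⟨C, hC⟩ := weighted H.bG_le hν hk τ hε
  have hs : Summable fun n : ℕ => (d : ℝ) * (n : ℝ) ^ (-(3 / 2) : ℝ) :=
    (Real.summable_nat_rpow.mpr (by norm_num)).mul_left _
  set K : ℝ := ∑' n : ℕ, (d : ℝ) * (n : ℝ) ^ (-(3 / 2) : ℝ) with hK
  refine ⟨K + |C|, ?_⟩
  filter_upwards [hC, eventually_ge_atTop (Real.exp 1)] with X h1 h2
  have hX1 : 1 < X := by
    have := Real.exp_one_gt_d9
    linarith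
  have hL1 : 1 ≤ Real.log X := by
    have := Real.log_le_log (Real.exp_pos 1) h2
    rwa [Real.log_exp] at this
  have hll : 0 ≤ Real.log (Real.log X) := Real.log_nonneg hL1
  have e1 : ∑ p ∈ pr ⌊X⌋₊, wt k τ X p * ((bG G α p / p : ℝ) : ℂ) =
      ∑ p ∈ up G X, wt k τ X p * ((bsq α p / p : ℝ) : ℂ) := by
    have h3 : up G X = (pr ⌊X⌋₊).filter G := by
      ext p
      rw [mem_up, Finset.mem_filter, mem_pr]
      exact ⟨fun h => ⟨⟨h.1, H.prime p h.2⟩, h.2⟩, fun h => ⟨h.1.1, h.2⟩⟩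
    rw [h3, Finset.sum_filter]
    refine Finset.sum_congr rfl fun p _ => ?_
    unfold bG
    split_ifs
    · rfl
    · simp
  rw [e1] at h1
  have h4 : ‖Lw G α k τ X + Sw G α k τ X +
      2⁻¹ * ∑ p ∈ up G X, wt k τ X p * ((bsq α p / p : ℝ) : ℂ)‖ ≤ K := by
    unfold Lw Sw
    rw [Finset.mul_sum, ← Finset.sum_add_distrib, ← Finset.sum_add_distrib]
    refine (norm_sum_le _ _).trans ?_
    refine le_trans (Finset.sum_le_sum fun p hp => ?_) (hs.sum_le_tsum (up G X) fun n _ => by positivity)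
    have hGp := (mem_up.1 hp).2
    have h5 := H.five p hGp
    have e2 : wt k τ X p * (lsum α p : ℝ) + wt k τ X p * (ssum α p : ℝ) +
        2⁻¹ * (wt k τ X p * ((bsq α p / p : ℝ) : ℂ)) =
        wt k τ X p * ((lsum α p + ssum α p + bsq α p / p / 2 : ℝ) : ℂ) := by
      push_cast
      ring
    rw [e2, norm_mul, Complex.norm_real, Real.norm_eq_abs]
    calc ‖wt k τ X p‖ * |lsum α p + ssum α p + bsq α p / p / 2| ≤
          1 * (d * (p : ℝ) ^ (-(3 / 2) : ℝ)) :=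
          mul_le_mul (wt_norm_le k τ p hX1.le (by omega)) (H.expand hGp) (abs_nonneg _) zero_le_one
      _ = _ := one_mul _
  have e3 : Lw G α k τ X + Sw G α k τ X + (1 - 1 / k) * (ν / 2) * (Real.log (Real.log X) : ℝ) =
      (Lw G α k τ X + Sw G α k τ X + 2⁻¹ * ∑ p ∈ up G X, wt k τ X p * ((bsq α p / p : ℝ) : ℂ)) -
      2⁻¹ * (∑ p ∈ up G X, wt k τ X p * ((bsq α p / p : ℝ) : ℂ) -
        (1 - 1 / k) * ν * (Real.log (Real.log X) : ℝ)) := by ring
  rw [e3]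
  refine (norm_sub_le _ _).trans ?_
  have h6 : ‖(2⁻¹ : ℂ) * (∑ p ∈ up G X, wt k τ X p * ((bsq α p / p : ℝ) : ℂ) -
        (1 - 1 / k) * ν * (Real.log (Real.log X) : ℝ))‖ ≤ ε * Real.log (Real.log X) + |C| := by
    rw [norm_mul]
    have h7 : ‖(2⁻¹ : ℂ)‖ = 2⁻¹ := by simp
    rw [h7]
    have h8 : 0 ≤ ε * Real.log (Real.log X) := by positivity
    have h9 := le_abs_self C
    have h10 : 0 ≤ |C| := abs_nonneg C
    calc 2⁻¹ * ‖∑ p ∈ up G X, wt k τ X p * ((bsq α p / p : ℝ) : ℂ) -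
        (1 - 1 / k) * ν * (Real.log (Real.log X) : ℝ)‖ ≤ 2⁻¹ * (ε * Real.log (Real.log X) + C) :=
          mul_le_mul_of_nonneg_left h1 (by norm_num)
      _ ≤ _ := by linarith
  linarith

/-! ### The laws -/

/-- `W(X) = (1 - 1/k) ρ log log X + o(log log X)` in the form of an inequality -/
def WL (W : ℝ → ℂ) (k : ℝ) (ρ : ℂ) : Prop := ∀ ε > 0, ∃ C : ℝ, XLaw W k ρ ε C

theorem WL_add {W V : ℝ → ℂ} {k : ℝ} {a b : ℂ} (h1 : WL W k a) (h2 : WL V k b) :
    WL (fun X => W X + V X) k (a + b) := by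
  intro ε hε
  obtain ⟨C₁, h3⟩ := h1 (ε / 2) (half_pos hε)
  obtain ⟨C₂, h4⟩ := h2 (ε / 2) (half_pos hε)
  refine ⟨C₁ + C₂, ?_⟩
  unfold XLaw at h3 h4 ⊢
  filter_upwards [h3, h4] with X h5 h6
  have e : W X + V X - (1 - 1 / k) * (a + b) * (Real.log (Real.log X) : ℝ) =
      (W X - (1 - 1 / k) * a * (Real.log (Real.log X) : ℝ)) +
      (V X - (1 - 1 / k) * b * (Real.log (Real.log X) : ℝ)) := by ring
  rw [e]
  refine (norm_add_le _ _).trans ?_
  linarith

theorem WL_neg {W : ℝ → ℂ} {k : ℝ} {a : ℂ} (h1 : WL W k a) : WL (fun X => -W X) k (-a) := by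
  intro ε hε
  obtain ⟨C₁, h3⟩ := h1 ε hε
  refine ⟨C₁, ?_⟩
  unfold XLaw at h3 ⊢
  filter_upwards [h3] with X h5
  have e : -W X - (1 - 1 / k) * (-a) * (Real.log (Real.log X) : ℝ) =
      -(W X - (1 - 1 / k) * a * (Real.log (Real.log X) : ℝ)) := by ring
  rwa [e, norm_neg]

/-- **The law for the logarithms and the law for the character sums.** -/
theorem Par.law_bias (H : Par G α) {ν : ℝ} (hν : Tendsto (M (bG G α)) atTop (𝓝 ν)) (hk : 1 < k) (τ : ℝ)
    (ρ : ℂ) : WL (Lw G α k τ) k ρ ↔ WL (Sw G α k τ) k (-(ρ + ν / 2)) := by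
  have h0 : WL (fun X => Lw G α k τ X + Sw G α k τ X) k (-(ν / 2)) := by
    intro ε hε
    obtain ⟨C, hC⟩ := H.compare hν hk τ hε
    refine ⟨C, ?_⟩
    unfold XLaw
    filter_upwards [hC] with X h1
    have e : Lw G α k τ X + Sw G α k τ X - (1 - 1 / k) * (-(ν / 2)) * (Real.log (Real.log X) : ℝ) =
      Lw G α k τ X + Sw G α k τ X + (1 - 1 / k) * (ν / 2) * (Real.log (Real.log X) : ℝ) := by ring
    rwa [e]
  constructor
  · intro h
    have h1 := WL_add h0 (WL_neg h)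
    have e1 : (fun X => Lw G α k τ X + Sw G α k τ X + -Lw G α k τ X) = Sw G α k τ := by
      funext X
      ring
    have e2 : (-(ν / 2) + -ρ : ℂ) = -(ρ + ν / 2) := by ring
    rwa [e1, e2] at h1
  · intro h
    have h1 := WL_add h0 (WL_neg h)
    have e1 : (fun X => Lw G α k τ X + Sw G α k τ X + -Sw G α k τ X) = Lw G α k τ := by
      funext X
      ring
    have e2 : (-(ν / 2) + -(-(ρ + ν / 2)) : ℂ) = ρ := by ring
    rwa [e1, e2] at h1

/-! ### The order of the continuation -/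

theorem WL_two {W V : ℝ → ℂ} (h : ∀ X, W X = 2 * V X) {k : ℝ} {ρ : ℂ} : WL W k (2 * ρ) ↔ WL V k ρ := by
  constructor
  · intro h1 ε hε
    obtain ⟨C, hC⟩ := h1 (2 * ε) (by positivity)
    refine ⟨C / 2, ?_⟩
    unfold XLaw at hC ⊢
    filter_upwards [hC] with X h2
    have e : W X - (1 - 1 / k) * (2 * ρ) * (Real.log (Real.log X) : ℝ) =
        2 * (V X - (1 - 1 / k) * ρ * (Real.log (Real.log X) : ℝ)) := by
      rw [h]
      ring
    rw [e, norm_mul, Complex.norm_ofNat] at h2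
    linarith
  · intro h1 ε hε
    obtain ⟨C, hC⟩ := h1 (ε / 2) (by positivity)
    refine ⟨2 * C, ?_⟩
    unfold XLaw at hC ⊢
    filter_upwards [hC] with X h2
    have e : W X - (1 - 1 / k) * (2 * ρ) * (Real.log (Real.log X) : ℝ) =
        2 * (V X - (1 - 1 / k) * ρ * (Real.log (Real.log X) : ℝ)) := by
      rw [h]
      ring
    rw [e, norm_mul, Complex.norm_ofNat]
    linarith

/-- the law with a bounded error -/
def SL (W : ℝ → ℂ) (k : ℝ) (ρ : ℂ) : Prop := ∃ C : ℝ, XLaw W k ρ 0 C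

theorem SL_two {W V : ℝ → ℂ} (h : ∀ X, W X = 2 * V X) {k : ℝ} {ρ : ℂ} : SL W k (2 * ρ) ↔ SL V k ρ := by
  constructor
  · rintro ⟨C, hC⟩
    refine ⟨C / 2, ?_⟩
    unfold XLaw at hC ⊢
    filter_upwards [hC] with X h2
    have e : W X - (1 - 1 / k) * (2 * ρ) * (Real.log (Real.log X) : ℝ) =
        2 * (V X - (1 - 1 / k) * ρ * (Real.log (Real.log X) : ℝ)) := by
      rw [h]
      ring
    rw [e, norm_mul, Complex.norm_ofNat] at h2
    linarith
  · rintro ⟨C, hC⟩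
    refine ⟨2 * C, ?_⟩
    unfold XLaw at hC ⊢
    filter_upwards [hC] with X h2
    have e : W X - (1 - 1 / k) * (2 * ρ) * (Real.log (Real.log X) : ℝ) =
        2 * (V X - (1 - 1 / k) * ρ * (Real.log (Real.log X) : ℝ)) := by
      rw [h]
      ring
    rw [e, norm_mul, Complex.norm_ofNat]
    linarith

theorem SL_WL {W : ℝ → ℂ} {k : ℝ} {ρ : ℂ} (h : SL W k ρ) : WL W k ρ := by
  intro ε hε
  obtain ⟨C, hC⟩ := h
  refine ⟨C, ?_⟩
  unfold XLaw at hC ⊢
  filter_upwards [hC, (Real.tendsto_log_atTop.comp Real.tendsto_log_atTop).eventually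
    (eventually_ge_atTop 0)] with X h1 h2
  have h3 : 0 ≤ Real.log (Real.log X) := h2
  refine h1.trans ?_
  have : 0 ≤ ε * Real.log (Real.log X) := by positivity
  linarith

/-- **From the order of the continuation to a law.** -/
theorem Par.fwd (H : Par G α) {F : ℂ → ℂ} (h1 : ∀ s : ℂ, 1 / 2 < s.re → MeromorphicAt F s)
    (h2 : MeromorphicAt F (1 / 2)) (h3 : ∀ s : ℂ, 1 < s.re → HasProd (loc G α s) (F s)) {m : ℤ}
    (hm : meromorphicOrderAt F (1 / 2) = m) : ∃ k τ : ℝ, 1 < k ∧ SL (Lw G α k τ) k m := by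
  have hM := H.mcont h1 h2 h3
  have hr : meromorphicOrderAt (Ph F) 0 = ((2 * m : ℤ) : WithTop ℤ) := by
    rw [Ph_order h2, hm, two_mul, WithTop.coe_add]
  obtain ⟨k, τ, hk, h4⟩ := H.ns.data.mero_law (by norm_num) hM hr
  refine ⟨k, τ, hk, (SL_two (W := Wn (qA G d) (tA G α) k τ) fun X => H.Wn_eq k τ X).1 ?_⟩
  have e : ((2 * m : ℤ) : ℂ) = 2 * (m : ℂ) := by push_cast; ring
  rwa [e] at h4

/-- **From a law to the order of the continuation.** -/
theorem Par.bwd (H : Par G α) {F : ℂ → ℂ} (h1 : ∀ s : ℂ, 1 / 2 < s.re → MeromorphicAt F s)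
    (h2 : MeromorphicAt F (1 / 2)) (h3 : ∀ s : ℂ, 1 < s.re → HasProd (loc G α s) (F s))
    (hk : 1 < k) (τ : ℝ) {ρ : ℂ} (h : WL (Lw G α k τ) k ρ) :
    ∃ m : ℤ, meromorphicOrderAt F (1 / 2) = m ∧ ρ = m := by
  have hM := H.mcont h1 h2 h3
  have h4 : WL (Wn (qA G d) (tA G α) k τ) k (2 * ρ) := (WL_two fun X => H.Wn_eq k τ X).2 h
  obtain ⟨n, h5, h6⟩ := H.ns.data.law_mero hM hk τ h4
  rw [Ph_order h2] at h5
  have h7 : meromorphicOrderAt F (1 / 2) ≠ ⊤ := by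
    intro hc
    rw [hc] at h5
    simp at h5
  obtain ⟨m, hm⟩ := WithTop.ne_top_iff_exists.1 h7
  refine ⟨m, hm.symm, ?_⟩
  rw [← hm, ← WithTop.coe_add, WithTop.coe_inj] at h5
  rw [← h5] at h6
  have : (2 : ℂ) * ρ = 2 * m := by
    rw [h6]
    push_cast
    ring
  exact mul_left_cancel₀ two_ne_zero this

end Pool.Agent.D0H40.AR
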