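import Pool.Agent.D0H40.AR.Osc

/-! The sums `∑ c(p) p^(-1-iθ)`, `θ ≠ 0`, are `o(log log N)`. -/

set_option autoImplicit false

namespace Pool.Agent.D0H40.AR

open Complex MeasureTheory Filter Topology Set
open Pool.Agent.W401.Cheb (pr M mem_pr tendsto_pc)

variable {θ : ℝ}

/-! ### The prime number theorem -/

/-- the indicator function of the primes times the logarithm, minus one -/
noncomputable def pa (n : ℕ) : ℝ := if n < 2 then 0 else (if n.Prime then Real.log n else 0) - 1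

theorem sum_pa (N : ℕ) (hN : 1 ≤ N) :
    ∑ n ∈ Finset.range (N + 1), pa n = Chebyshev.theta N - (N - 1) := by
  have h1 : Chebyshev.theta (N : ℝ) = ∑ n ∈ Finset.range (N + 1), if n.Prime then Real.log n else 0 := by
    rw [Chebyshev.theta_eq_sum_Icc, Nat.floor_natCast, Finset.sum_filter]
    refine Finset.sum_congr ?_ fun _ _ => rfl
    ext n
    simp
  have h2 : ∑ n ∈ Finset.range (N + 1), (if n < 2 then (0:ℝ) else 1) = N - 1 := by
    induction N, hN using Nat.le_induction with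
    | base => simp [Finset.sum_range_succ]
    | succ N hN ih =>
      rw [Finset.sum_range_succ, ih (by
        rw [Chebyshev.theta_eq_sum_Icc, Nat.floor_natCast, Finset.sum_filter]
        refine Finset.sum_congr ?_ fun _ _ => rfl
        ext n
        simp), if_neg (by omega)]
      push_cast
      ring
  rw [h1, ← h2, ← Finset.sum_sub_distrib]
  refine Finset.sum_congr rfl fun n _ => ?_
  unfold pa
  by_cases hn : n < 2
  · rw [if_pos hn, if_pos hn]
    have : ¬ n.Prime := by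
      intro h
      have := h.two_le
      omega
    rw [if_neg this]
    ring
  · rw [if_neg hn, if_neg hn]

theorem pa_bound {ε : ℝ} (hε : 0 < ε) : ∃ C : ℝ, 0 ≤ C ∧ ∀ N : ℕ,
    |∑ n ∈ Finset.range (N + 1), pa n| ≤ ε * N + C := by
  have h1 := Pool.Agent.Cov.PNT.theta_div_tendsto.comp (tendsto_natCast_atTop_atTop (R := ℝ))
  obtain ⟨N₀, hN₀⟩ := (Metric.tendsto_atTop.1 h1) ε hε
  set C₀ : ℝ := ∑ n ∈ Finset.range (N₀ + 1), |pa n| with hC₀
  have hC₀0 : 0 ≤ C₀ := Finset.sum_nonneg fun _ _ => abs_nonneg _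
  refine ⟨C₀ + 1, by linarith, fun N => ?_⟩
  rcases Nat.lt_or_ge N (max N₀ 1) with h2 | h2
  · have h3 : ∑ n ∈ Finset.range (N + 1), |pa n| ≤ C₀ + 1 := by
      rcases Nat.lt_or_ge N N₀ with h4 | h4
      · have : ∑ n ∈ Finset.range (N + 1), |pa n| ≤ C₀ :=
          Finset.sum_le_sum_of_subset_of_nonneg (Finset.range_mono (by omega)) fun _ _ _ => abs_nonneg _
        linarith
      · have h5 : N = 0 := by
          rcases lt_max_iff.1 h2 with h6 | h6 <;> omega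
        rw [h5]
        simp only [zero_add, Finset.range_one, Finset.sum_singleton]
        have : pa 0 = 0 := by unfold pa; simp
        rw [this, abs_zero]
        linarith
    have := Finset.abs_sum_le_sum_abs pa (Finset.range (N + 1))
    have : 0 ≤ ε * N := by positivity
    linarith
  · have h3 : N₀ ≤ N := (le_max_left _ _).trans h2
    have h4 : 1 ≤ N := (le_max_right _ _).trans h2
    have h5 := hN₀ N h3
    have hN0 : (0 : ℝ) < N := by exact_mod_cast h4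
    simp only [Function.comp_apply] at h5
    rw [Real.dist_eq] at h5
    rw [sum_pa N h4]
    have e : Chebyshev.theta (N : ℝ) - (N - 1) = (Chebyshev.theta (N : ℝ) / N - 1) * N + 1 := by
      field_simp
      ring
    rw [e]
    refine (abs_add_le _ _).trans ?_
    rw [abs_mul, abs_of_pos hN0, abs_one]
    have := mul_le_mul_of_nonneg_right h5.le hN0.le
    linarith

/-- `n^(-1-iθ) / log n` -/
noncomputable def ph (θ : ℝ) (n : ℕ) : ℂ := (Real.log n)⁻¹ • pw θ n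

theorem log_two_half : 1 / 2 ≤ Real.log 2 := by
  have := Real.log_two_gt_d9
  linarith

theorem ph_diff (θ : ℝ) {n : ℕ} (hn : 2 ≤ n) :
    ‖ph θ n - ph θ (n + 1)‖ ≤ (ct θ + 1) / ((n : ℝ) ^ 2 * Real.log n) := by
  have h2 : (2 : ℝ) ≤ n := by exact_mod_cast hn
  have hl : 0 < Real.log n := Real.log_pos (by linarith)
  have hl1 : 1 ≤ Real.log ((n + 1 : ℕ) : ℝ) := by
    rw [Real.le_log_iff_exp_le (by positivity)]
    have := Real.exp_one_lt_d9
    push_cast
    linarith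
  have hcast : ((n + 1 : ℕ) : ℝ) = (n : ℝ) + 1 := by push_cast; rfl
  have e : ph θ n - ph θ (n + 1) = (Real.log n)⁻¹ • (pw θ n - pw θ ((n + 1 : ℕ) : ℝ)) +
      ((Real.log n)⁻¹ - (Real.log ((n + 1 : ℕ) : ℝ))⁻¹) • pw θ ((n + 1 : ℕ) : ℝ) := by
    unfold ph
    rw [smul_sub, sub_smul]
    abel
  rw [e]
  refine (norm_add_le _ _).trans ?_
  rw [norm_smul, norm_smul, norm_sub_rev, pw_norm θ (by positivity : (0:ℝ) < ((n + 1 : ℕ) : ℝ)),
    Real.norm_of_nonneg (inv_pos.2 hl).le]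
  have h3 := pw_diff θ (a := n) (x := ((n + 1 : ℕ) : ℝ)) (by linarith) (by rw [hcast]; linarith)
  have h4 : ct θ / (n : ℝ) ^ 2 * (((n + 1 : ℕ) : ℝ) - n) = ct θ / (n : ℝ) ^ 2 := by
    rw [hcast]
    ring
  rw [h4] at h3
  have h5 : 0 ≤ (Real.log n)⁻¹ - (Real.log ((n + 1 : ℕ) : ℝ))⁻¹ := by
    rw [sub_nonneg]
    exact inv_anti₀ hl (Real.log_le_log (by linarith) (by rw [hcast]; linarith))
  have h6 : (Real.log n)⁻¹ - (Real.log ((n + 1 : ℕ) : ℝ))⁻¹ ≤ ((n : ℝ) * Real.log n)⁻¹ := by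
    have h7 : Real.log ((n + 1 : ℕ) : ℝ) - Real.log n ≤ (n : ℝ)⁻¹ := by
      have h8 := Real.log_le_sub_one_of_pos (show 0 < ((n + 1 : ℕ) : ℝ) / n by positivity)
      rw [Real.log_div (by positivity) (by linarith)] at h8
      have h9 : ((n + 1 : ℕ) : ℝ) / n - 1 = (n : ℝ)⁻¹ := by
        push_cast
        field_simp
        ring
      linarith
    rw [inv_sub_inv hl.ne' (by linarith), mul_inv, div_eq_mul_inv, mul_inv]
    have h10 : (Real.log ((n + 1 : ℕ) : ℝ))⁻¹ ≤ 1 := inv_le_one_of_one_le₀ hl1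
    have h11 : 0 ≤ Real.log ((n + 1 : ℕ) : ℝ) - Real.log n :=
      sub_nonneg.2 (Real.log_le_log (by linarith) (by rw [hcast]; linarith))
    calc (Real.log ((n + 1 : ℕ) : ℝ) - Real.log n) * ((Real.log n)⁻¹ * (Real.log ((n + 1 : ℕ) : ℝ))⁻¹) ≤
          (n : ℝ)⁻¹ * ((Real.log n)⁻¹ * 1) := by
            refine mul_le_mul h7 ?_ (by positivity) (by positivity)
            exact mul_le_mul_of_nonneg_left h10 (by positivity)
      _ = _ := by ring
  rw [Real.norm_of_nonneg h5]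
  have h7 : ((n + 1 : ℕ) : ℝ)⁻¹ ≤ (n : ℝ)⁻¹ := inv_anti₀ (by linarith) (by rw [hcast]; linarith)
  calc (Real.log n)⁻¹ * ‖pw θ ((n + 1 : ℕ) : ℝ) - pw θ n‖ +
        ((Real.log n)⁻¹ - (Real.log ((n + 1 : ℕ) : ℝ))⁻¹) * ((n + 1 : ℕ) : ℝ)⁻¹ ≤
        (Real.log n)⁻¹ * (ct θ / (n : ℝ) ^ 2) + ((n : ℝ) * Real.log n)⁻¹ * (n : ℝ)⁻¹ := by
          gcongr
    _ = (ct θ + 1) / ((n : ℝ) ^ 2 * Real.log n) := by
          field_simp

/-- the sum of `p^(-1-iθ)` over the primes -/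
theorem sum_pw_pr (hθ : θ ≠ 0) {ε : ℝ} (hε : 0 < ε) : ∃ C : ℝ, ∀ N : ℕ, 3 ≤ N →
    ‖∑ p ∈ pr N, pw θ p‖ ≤ ε * Real.log (Real.log N) + C := by
  obtain ⟨K, hK⟩ := pw_log_partial hθ
  set B : ℝ := ct θ + 1 with hB
  have hB0 : 0 < B := by
    have := ct_nonneg θ
    linarith
  obtain ⟨C₁, hC₁0, hC₁⟩ := pa_bound (ε := ε / B) (by positivity)
  have hs := inv_sq_summable
  set f : ℕ → ℂ := fun n => (∑ i ∈ Finset.range (n + 1), (pa i : ℂ)) * (ph θ n - ph θ (n + 1)) with hf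
  have hA : ∀ n, ‖∑ i ∈ Finset.range (n + 1), (pa i : ℂ)‖ ≤ ε / B * n + C₁ := by
    intro n
    rw [← Complex.ofReal_sum, Complex.norm_real]
    exact hC₁ n
  have hfn : ∀ n : ℕ, 3 ≤ n → ‖f n‖ ≤ ε * ((n : ℝ) * Real.log n)⁻¹ + (C₁ * B) * (4 * (1 / ((n : ℝ) + 1) ^ 2)) := by
    intro n hn
    have h3 : (3 : ℝ) ≤ n := by exact_mod_cast hn
    have hl1 : 1 ≤ Real.log n := by
      rw [Real.le_log_iff_exp_le (by linarith)]
      have := Real.exp_one_lt_d9
      linarith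
    rw [hf]
    simp only
    rw [norm_mul]
    have hnn : 0 ≤ ε / B * n + C₁ := by positivity
    refine (mul_le_mul (hA n) (ph_diff θ (by omega)) (norm_nonneg _) hnn).trans ?_
    rw [← hB, add_mul]
    have e1 : ε / B * n * (B / ((n : ℝ) ^ 2 * Real.log n)) = ε * ((n : ℝ) * Real.log n)⁻¹ := by
      field_simp
    rw [e1]
    have h4 : B / ((n : ℝ) ^ 2 * Real.log n) ≤ B * (4 * (1 / ((n : ℝ) + 1) ^ 2)) := by
      rw [div_eq_mul_one_div]
      refine mul_le_mul_of_nonneg_left ?_ hB0.le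
      rw [mul_one_div, div_le_div_iff₀ (by positivity) (by positivity)]
      nlinarith
    have := mul_le_mul_of_nonneg_left h4 hC₁0
    linarith
  refine ⟨(ε / B + C₁) * 2 + (∑ n ∈ Finset.range 3, ‖f n‖) + ε * |Real.log (Real.log 2)| +
    (C₁ * B) * (4 * ∑' n : ℕ, (1 : ℝ) / ((n : ℝ) + 1) ^ 2) + K, fun N hN => ?_⟩
  have hN3 : (3 : ℝ) ≤ N := by exact_mod_cast hN
  -- decomposition
  have e1 : ∑ p ∈ pr N, pw θ p = ∑ n ∈ Finset.range (N + 1), (pa n : ℂ) * ph θ n +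
      ∑ n ∈ Finset.range (N - 1), (Real.log ((n : ℝ) + 2))⁻¹ • pw θ ((n : ℝ) + 2) := by
    have h1 : ∑ n ∈ Finset.range (N - 1), (Real.log ((n : ℝ) + 2))⁻¹ • pw θ ((n : ℝ) + 2) =
        ∑ n ∈ Finset.range (N + 1), if n < 2 then 0 else ph θ n := by
      have h2 : N + 1 = (N - 1) + 2 := by omega
      rw [h2, Finset.sum_range_succ' , Finset.sum_range_succ']
      simp only [zero_add, Nat.zero_lt_succ, if_true, add_zero]
      rw [if_pos (by norm_num : (1:ℕ) < 2), add_zero]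
      refine Finset.sum_congr rfl fun n _ => ?_
      rw [if_neg (by omega)]
      unfold ph
      push_cast
      rw [add_assoc]
      norm_num
    rw [h1, ← Finset.sum_add_distrib]
    unfold pr
    rw [Finset.sum_filter]
    refine Finset.sum_congr rfl fun n _ => ?_
    unfold pa ph
    by_cases hn : n < 2
    · have : ¬ n.Prime := by
        intro h
        have := h.two_le
        omega
      rw [if_neg this, if_pos hn, if_pos hn]
      simp
    · rw [if_neg hn, if_neg hn]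
      by_cases hp : n.Prime
      · rw [if_pos hp, if_pos hp]
        have hl : Real.log n ≠ 0 := (Real.log_pos (by exact_mod_cast hp.one_lt)).ne'
        have hl' : ((Real.log n : ℝ) : ℂ) ≠ 0 := by exact_mod_cast hl
        simp only [Complex.real_smul, Complex.ofReal_sub, Complex.ofReal_one, Complex.ofReal_inv]
        field_simp
        ring
      · rw [if_neg hp, if_neg hp]
        push_cast
        ring
  rw [e1, abelC]
  have h1 : ‖(∑ n ∈ Finset.range (N + 1), (pa n : ℂ)) * ph θ (N + 1)‖ ≤ (ε / B + C₁) * 2 := by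
    rw [norm_mul]
    have h2 : ‖ph θ (N + 1)‖ ≤ 2 * (N : ℝ)⁻¹ := by
      unfold ph
      rw [norm_smul, pw_norm θ (by positivity)]
      have hl2 : 1 / 2 ≤ Real.log ((N + 1 : ℕ) : ℝ) :=
        log_two_half.trans (Real.log_le_log (by norm_num) (by push_cast; linarith))
      have h3 : ‖(Real.log ((N + 1 : ℕ) : ℝ))⁻¹‖ ≤ 2 := by
        rw [Real.norm_of_nonneg (inv_nonneg.2 (by linarith))]
        calc (Real.log ((N + 1 : ℕ) : ℝ))⁻¹ ≤ (1 / 2)⁻¹ := inv_anti₀ (by norm_num) hl2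
          _ = 2 := by norm_num
      have h4 : ((N + 1 : ℕ) : ℝ)⁻¹ ≤ (N : ℝ)⁻¹ := inv_anti₀ (by linarith) (by push_cast; linarith)
      exact mul_le_mul h3 h4 (by positivity) (by norm_num)
    have h5 : 0 ≤ ε / B * N + C₁ := by positivity
    refine (mul_le_mul (hA N) h2 (norm_nonneg _) h5).trans ?_
    have h6 : (ε / B * N + C₁) * (2 * (N : ℝ)⁻¹) = (ε / B) * 2 + C₁ * 2 * (N : ℝ)⁻¹ := by
      field_simp
    rw [h6]
    have h7 : (N : ℝ)⁻¹ ≤ 1 := inv_le_one_of_one_le₀ (by linarith)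
    have h8 : C₁ * 2 * (N : ℝ)⁻¹ ≤ C₁ * 2 * 1 := mul_le_mul_of_nonneg_left h7 (by positivity)
    linarith
  have h2 : ‖∑ n ∈ Finset.range (N + 1), f n‖ ≤ (∑ n ∈ Finset.range 3, ‖f n‖) +
      ε * (Real.log (Real.log N) + |Real.log (Real.log 2)|) +
      (C₁ * B) * (4 * ∑' n : ℕ, (1 : ℝ) / ((n : ℝ) + 1) ^ 2) := by
    refine (norm_sum_le _ _).trans ?_
    have h3 : Finset.range (N + 1) = Finset.range 3 ∪ Finset.Icc 3 N := by
      ext n
      simp only [Finset.mem_range, Finset.mem_union, Finset.mem_Icc]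
      omega
    have h4 : Disjoint (Finset.range 3) (Finset.Icc 3 N) := by
      rw [Finset.disjoint_left]
      intro n h5 h6
      have := Finset.mem_range.1 h5
      have := (Finset.mem_Icc.1 h6).1
      omega
    rw [h3, Finset.sum_union h4, add_assoc]
    refine add_le_add_right ?_ _
    refine (Finset.sum_le_sum fun n hn => hfn n (Finset.mem_Icc.1 hn).1).trans ?_
    rw [Finset.sum_add_distrib, ← Finset.mul_sum, ← Finset.mul_sum, ← Finset.mul_sum]
    have h5 := sum_inv_log N (by omega)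
    have h6 : ∑ n ∈ Finset.Icc 3 N, (1 : ℝ) / ((n : ℝ) + 1) ^ 2 ≤ ∑' n : ℕ, (1 : ℝ) / ((n : ℝ) + 1) ^ 2 :=
      hs.sum_le_tsum _ fun n _ => by positivity
    have h7 := neg_abs_le (Real.log (Real.log 2))
    have h8 : ε * ∑ n ∈ Finset.Icc 3 N, ((n : ℝ) * Real.log n)⁻¹ ≤
        ε * (Real.log (Real.log N) + |Real.log (Real.log 2)|) :=
      mul_le_mul_of_nonneg_left (by linarith) hε.le
    have h9 : (C₁ * B) * (4 * ∑ n ∈ Finset.Icc 3 N, (1 : ℝ) / ((n : ℝ) + 1) ^ 2) ≤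
        (C₁ * B) * (4 * ∑' n : ℕ, (1 : ℝ) / ((n : ℝ) + 1) ^ 2) :=
      mul_le_mul_of_nonneg_left (mul_le_mul_of_nonneg_left h6 (by norm_num)) (by positivity)
    linarith
  have h3 := hK (N - 1)
  refine (norm_add_le _ _).trans ?_
  have h4 := norm_add_le ((∑ n ∈ Finset.range (N + 1), (pa n : ℂ)) * ph θ (N + 1))
    (∑ n ∈ Finset.range (N + 1), f n)
  linarith

/-! ### Mean values -/

theorem mean_T {b : ℕ → ℝ} {ν : ℝ} (h : Tendsto (M b) atTop (𝓝 ν)) {ε : ℝ} (hε : 0 < ε) :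
    ∃ C : ℝ, 0 ≤ C ∧ ∀ N, |∑ p ∈ pr N, (b p - ν)| ≤ ε * Nat.primeCounting N + C := by
  set a : ℕ → ℝ := fun p => b p - ν with ha
  have hsum : ∀ N, ∑ p ∈ pr N, a p = ∑ p ∈ pr N, b p - ν * Nat.primeCounting N := by
    intro N
    rw [ha, Finset.sum_sub_distrib, ← card_pr, Finset.mul_sum]
    simp
  obtain ⟨N₀, hN₀⟩ := (Metric.tendsto_atTop.1 h) ε hε
  set C₀ : ℝ := ∑ p ∈ pr N₀, |a p| with hC₀
  have hC₀0 : 0 ≤ C₀ := Finset.sum_nonneg fun _ _ => abs_nonneg _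
  refine ⟨C₀, hC₀0, fun N => ?_⟩
  have hπ : (0 : ℝ) ≤ Nat.primeCounting N := Nat.cast_nonneg _
  rcases le_or_gt N₀ N with h1 | h1
  · have h2 := hN₀ N h1
    rw [Real.dist_eq] at h2
    rcases hπ.eq_or_lt with h3 | h3
    · have h4 : pr N = ∅ := by
        have h5 := card_pr N
        rw [← h3, Finset.sum_const, nsmul_eq_mul, mul_one] at h5
        exact Finset.card_eq_zero.1 (by exact_mod_cast h5)
      rw [h4, Finset.sum_empty, abs_zero]
      positivity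
    · have h4 : ∑ p ∈ pr N, a p = (M b N - ν) * Nat.primeCounting N := by
        rw [hsum]
        unfold M
        field_simp
      rw [h4, abs_mul, abs_of_nonneg hπ]
      have h5 := mul_le_mul_of_nonneg_right h2.le hπ
      linarith
  · refine (Finset.abs_sum_le_sum_abs _ _).trans ?_
    have h2 : ∑ p ∈ pr N, |a p| ≤ C₀ := by
      refine Finset.sum_le_sum_of_subset_of_nonneg ?_ fun _ _ _ => abs_nonneg _
      intro p hp
      rw [mem_pr] at hp ⊢
      exact ⟨hp.1.trans h1.le, hp.2⟩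
    have : 0 ≤ ε * Nat.primeCounting N := by positivity
    linarith

theorem sum_prC (a : ℕ → ℂ) (N : ℕ) :
    ∑ p ∈ pr N, a p = ∑ n ∈ Finset.range (N + 1), if n.Prime then a n else 0 := by
  unfold pr
  rw [Finset.sum_filter]

/-- Abel summation with `p^(-1-iθ)` -/
theorem abel_pw (a : ℕ → ℂ) {ε C : ℝ} (hε : 0 ≤ ε) (hC : 0 ≤ C)
    (h : ∀ N, ‖∑ p ∈ pr N, a p‖ ≤ ε * Nat.primeCounting N + C) (N : ℕ) :
    ‖∑ p ∈ pr N, a p * pw θ p‖ ≤ (1 + 2 * ct θ) * (ε * ∑ p ∈ pr N, (1 : ℝ) / p + C) := by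
  set a' : ℕ → ℂ := fun n => if n.Prime then a n else 0 with ha'
  have e1 : ∑ p ∈ pr N, a p * pw θ p = ∑ n ∈ Finset.range (N + 1), a' n * pw θ n := by
    rw [sum_prC]
    refine Finset.sum_congr rfl fun n _ => ?_
    rw [ha']
    simp only
    split_ifs
    · rfl
    · rw [zero_mul]
  have hT : ∀ n, ∑ i ∈ Finset.range (n + 1), a' i = ∑ p ∈ pr n, a p := fun n => (sum_prC a n).symm
  have hcast : ∀ n : ℕ, ((n + 1 : ℕ) : ℝ) = (n : ℝ) + 1 := fun n => by push_cast; rfl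
  rw [e1, abelC a' (fun n => pw θ n) N]
  have h0 := ct_nonneg θ
  have h1 : ‖(∑ n ∈ Finset.range (N + 1), a' n) * pw θ ((N + 1 : ℕ) : ℝ)‖ ≤
      (ε * Nat.primeCounting N + C) / (N + 1) := by
    rw [norm_mul, hT, pw_norm θ (by positivity), hcast, div_eq_mul_inv]
    exact mul_le_mul_of_nonneg_right (h N) (by positivity)
  have h2 : ‖∑ n ∈ Finset.range (N + 1), (∑ i ∈ Finset.range (n + 1), a' i) *
      (pw θ n - pw θ ((n + 1 : ℕ) : ℝ))‖ ≤
      ∑ n ∈ Finset.range N, (2 * ct θ) * ((ε * Nat.primeCounting (n + 1) + C) / (((n : ℝ) + 1) * (n + 2))) := by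
    refine (norm_sum_le _ _).trans ?_
    rw [Finset.sum_range_succ']
    have h3 : ‖(∑ i ∈ Finset.range (0 + 1), a' i) * (pw θ ((0 : ℕ) : ℝ) - pw θ ((0 + 1 : ℕ) : ℝ))‖ = 0 := by
      rw [hT]
      have : pr 0 = ∅ := by
        ext p
        rw [mem_pr]
        simp only [Nat.le_zero, Finset.notMem_empty, iff_false, not_and]
        rintro rfl
        exact Nat.not_prime_zero
      rw [this]
      simp
    rw [h3, add_zero]
    refine Finset.sum_le_sum fun n _ => ?_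
    rw [norm_mul, hT]
    have h4 := pw_diff θ (a := ((n + 1 : ℕ) : ℝ)) (x := ((n + 1 + 1 : ℕ) : ℝ)) (by positivity)
      (by rw [hcast (n + 1)]; linarith)
    have h5 : ct θ / ((n + 1 : ℕ) : ℝ) ^ 2 * (((n + 1 + 1 : ℕ) : ℝ) - ((n + 1 : ℕ) : ℝ)) ≤
        (2 * ct θ) * (1 / (((n : ℝ) + 1) * (n + 2))) := by
      rw [hcast (n + 1), hcast n, add_sub_cancel_left, mul_one, mul_one_div, div_le_div_iff₀
        (by positivity) (by positivity)]
      have : 0 ≤ (n : ℝ) := Nat.cast_nonneg n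
      nlinarith [mul_nonneg h0 this, mul_nonneg (mul_nonneg h0 this) this]
    rw [norm_sub_rev]
    have h6 : 0 ≤ ε * Nat.primeCounting (n + 1) + C := by positivity
    calc ‖∑ p ∈ pr (n + 1), a p‖ * ‖pw θ ((n + 1 + 1 : ℕ) : ℝ) - pw θ ((n + 1 : ℕ) : ℝ)‖ ≤
          (ε * Nat.primeCounting (n + 1) + C) * ((2 * ct θ) * (1 / (((n : ℝ) + 1) * (n + 2)))) :=
          mul_le_mul (h (n + 1)) (h4.trans h5) (norm_nonneg _) h6
      _ = _ := by ring
  refine (norm_add_le _ _).trans ((add_le_add h1 h2).trans ?_)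
  have h7 := abel (fun _ => 1) N
  simp only [card_pr] at h7
  rw [h7, ← Finset.mul_sum]
  have h8 := tele N
  have h5 : ∑ n ∈ Finset.range N, (ε * Nat.primeCounting (n + 1) + C) / (((n : ℝ) + 1) * (n + 2)) =
      ε * ∑ n ∈ Finset.range N, (Nat.primeCounting (n + 1) : ℝ) / (((n : ℝ) + 1) * (n + 2)) +
        C * ∑ n ∈ Finset.range N, (1 : ℝ) / (((n : ℝ) + 1) * (n + 2)) := by
    rw [Finset.mul_sum, Finset.mul_sum, ← Finset.sum_add_distrib]
    refine Finset.sum_congr rfl fun n _ => ?_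
    ring
  rw [h5]
  set S₁ := ∑ n ∈ Finset.range N, (Nat.primeCounting (n + 1) : ℝ) / (((n : ℝ) + 1) * (n + 2)) with hS₁
  set S₂ := ∑ n ∈ Finset.range N, (1 : ℝ) / (((n : ℝ) + 1) * (n + 2)) with hS₂
  have hS₁0 : 0 ≤ S₁ := Finset.sum_nonneg fun n _ => by positivity
  have hS₂0 : 0 ≤ S₂ := Finset.sum_nonneg fun n _ => by positivity
  have e3 : (ε * Nat.primeCounting N + C) / ((N : ℝ) + 1) =
      ε * ((Nat.primeCounting N : ℝ) / (N + 1)) + C * (1 / ((N : ℝ) + 1)) := by ring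
  rw [e3]
  have h9 : 0 ≤ (Nat.primeCounting N : ℝ) / (N + 1) := by positivity
  have h10 : 0 ≤ (1 : ℝ) / ((N : ℝ) + 1) := by positivity
  set Q := (Nat.primeCounting N : ℝ) / (N + 1)
  set R := (1 : ℝ) / ((N : ℝ) + 1)
  have h11 : C = C * R + C * S₂ := by
    rw [← mul_add, h8, mul_one]
  nlinarith [mul_nonneg hε h9, mul_nonneg hε hS₁0, mul_nonneg hC h10, mul_nonneg hC hS₂0,
    mul_nonneg h0 (mul_nonneg hε h9), mul_nonneg h0 (mul_nonneg hC h10)]

/-- **The sums `∑ c(p) p^(-1-iθ)`.** -/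
theorem osc_mean (hθ : θ ≠ 0) {c : ℕ → ℂ} {μ : ℂ} (hre : Tendsto (M fun p => (c p).re) atTop (𝓝 μ.re))
    (him : Tendsto (M fun p => (c p).im) atTop (𝓝 μ.im)) {ε : ℝ} (hε : 0 < ε) :
    ∃ C : ℝ, ∀ N : ℕ, 3 ≤ N → ‖∑ p ∈ pr N, c p * pw θ p‖ ≤ ε * Real.log (Real.log N) + C := by
  have h0 := ct_nonneg θ
  set D : ℝ := 1 + 2 * ct θ with hD
  have hD0 : 0 < D := by linarith
  obtain ⟨C₁, hC₁0, hC₁⟩ := mean_T hre (ε := ε / (4 * D)) (by positivity)
  obtain ⟨C₂, hC₂0, hC₂⟩ := mean_T him (ε := ε / (4 * D)) (by positivity)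
  obtain ⟨C₃, hC₃⟩ := sum_pw_pr hθ (ε := ε / (2 * (‖μ‖ + 1))) (by positivity)
  obtain ⟨C₄, hC₄0, hC₄⟩ := mertens
  have hT : ∀ N, ‖∑ p ∈ pr N, (c p - μ)‖ ≤ ε / (2 * D) * Nat.primeCounting N + (C₁ + C₂) := by
    intro N
    refine (Complex.norm_le_abs_re_add_abs_im _).trans ?_
    have e1 : (∑ p ∈ pr N, (c p - μ)).re = ∑ p ∈ pr N, ((c p).re - μ.re) := by
      rw [Complex.re_sum]
      rfl
    have e2 : (∑ p ∈ pr N, (c p - μ)).im = ∑ p ∈ pr N, ((c p).im - μ.im) := by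
      rw [Complex.im_sum]
      rfl
    rw [e1, e2]
    have h1 := hC₁ N
    have h2 := hC₂ N
    have e3 : ε / (2 * D) * (Nat.primeCounting N : ℝ) =
        ε / (4 * D) * Nat.primeCounting N + ε / (4 * D) * Nat.primeCounting N := by
      field_simp
      ring
    rw [e3]
    linarith
  refine ⟨ε / 2 * C₄ + D * (C₁ + C₂) + ‖μ‖ * |C₃|, fun N hN => ?_⟩
  have h1 := abel_pw (θ := θ) (fun p => c p - μ) (by positivity) (by positivity) hT N
  have h2 := hC₃ N hN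
  have h3 := (abs_le.1 (hC₄ N hN)).2
  have e : ∑ p ∈ pr N, c p * pw θ p = ∑ p ∈ pr N, (c p - μ) * pw θ p + μ * ∑ p ∈ pr N, pw θ p := by
    rw [Finset.mul_sum, ← Finset.sum_add_distrib]
    refine Finset.sum_congr rfl fun p _ => ?_
    ring
  rw [e]
  refine (norm_add_le _ _).trans ?_
  rw [norm_mul]
  have hll : 0 ≤ Real.log (Real.log N) := by
    have h3 : (3 : ℝ) ≤ N := by exact_mod_cast hN
    refine Real.log_nonneg ?_
    rw [Real.le_log_iff_exp_le (by linarith)]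
    have := Real.exp_one_lt_d9
    linarith
  have h4 : D * (ε / (2 * D) * ∑ p ∈ pr N, (1 : ℝ) / p + (C₁ + C₂)) ≤
      ε / 2 * (Real.log (Real.log N) + C₄) + D * (C₁ + C₂) := by
    have e4 : D * (ε / (2 * D) * ∑ p ∈ pr N, (1 : ℝ) / p + (C₁ + C₂)) =
        ε / 2 * ∑ p ∈ pr N, (1 : ℝ) / p + D * (C₁ + C₂) := by
      field_simp
    rw [e4]
    have : ε / 2 * ∑ p ∈ pr N, (1 : ℝ) / p ≤ ε / 2 * (Real.log (Real.log N) + C₄) :=
      mul_le_mul_of_nonneg_left (by linarith) (by positivity)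
    linarith
  have h5 : ‖μ‖ * ‖∑ p ∈ pr N, pw θ p‖ ≤ ε / 2 * Real.log (Real.log N) + ‖μ‖ * |C₃| := by
    have h6 := mul_le_mul_of_nonneg_left h2 (norm_nonneg μ)
    have h7 : ‖μ‖ * (ε / (2 * (‖μ‖ + 1)) * Real.log (Real.log N)) ≤ ε / 2 * Real.log (Real.log N) := by
      have h8 : ‖μ‖ * (ε / (2 * (‖μ‖ + 1))) ≤ ε / 2 := by
        rw [mul_div_assoc', div_le_div_iff₀ (by positivity) (by norm_num)]
        nlinarith [norm_nonneg μ]
      calc ‖μ‖ * (ε / (2 * (‖μ‖ + 1)) * Real.log (Real.log N)) =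
            (‖μ‖ * (ε / (2 * (‖μ‖ + 1)))) * Real.log (Real.log N) := by ring
        _ ≤ _ := mul_le_mul_of_nonneg_right h8 hll
    have h9 : ‖μ‖ * C₃ ≤ ‖μ‖ * |C₃| := mul_le_mul_of_nonneg_left (le_abs_self _) (norm_nonneg μ)
    linarith
  linarith

end Pool.Agent.D0H40.AR
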