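import Pool.Agent.D0H40.AR.Sector
import Pool.Agent.D0H40.AR.Osc2

/-! The comparison of the sums with a weaker hypothesis on the squares of the parameters. -/

set_option autoImplicit false

namespace Pool.Agent.D0H40.AR

open Complex MeasureTheory Filter Topology Set
open Pool.Agent.D0H40.CX
open Pool.Agent.W401.Cheb (pr M mem_pr tendsto_pc)

variable {G : ℕ → Prop} {d : ℕ} {α : ℕ → Fin d → ℂ} {k : ℝ}

/-- `∑_{p ≤ N} b(p)/p = ν log log N + o(log log N)` -/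
def ML (b : ℕ → ℝ) (ν : ℝ) : Prop := ∀ ε : ℝ, 0 < ε → ∃ C : ℝ, ∀ N : ℕ, 3 ≤ N →
  |∑ p ∈ pr N, b p / p - ν * Real.log (Real.log N)| ≤ ε * Real.log (Real.log N) + C

theorem ML_of_mean {b : ℕ → ℝ} {ν : ℝ} (h : Tendsto (M b) atTop (𝓝 ν)) : ML b ν :=
  fun _ hε => mean_log h hε

theorem pw_mul (θ : ℝ) {n : ℕ} (hn : 0 < n) (c : ℂ) :
    c * pw θ n = (c * (n : ℂ) ^ (-(θ * I))) / (n : ℝ) := by
  have hn0 : (n : ℂ) ≠ 0 := by exact_mod_cast hn.ne'
  unfold pw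
  push_cast
  rw [neg_add, Complex.cpow_add _ _ hn0, Complex.cpow_neg_one]
  field_simp

/-- the oscillating sums -/
theorem ML_osc {θ : ℝ} (hθ : θ ≠ 0) {c : ℕ → ℂ} {μ : ℂ}
    (hre : Tendsto (M fun p => (c p).re) atTop (𝓝 μ.re))
    (him : Tendsto (M fun p => (c p).im) atTop (𝓝 μ.im)) :
    ML (fun p => (c p * (p : ℂ) ^ (-(θ * I))).re) 0 := by
  intro ε hε
  obtain ⟨C, hC⟩ := osc_mean hθ hre him hε
  refine ⟨C, fun N hN => ?_⟩
  rw [zero_mul, sub_zero]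
  refine le_trans ?_ (hC N hN)
  have e : ∑ p ∈ pr N, (c p * (p : ℂ) ^ (-(θ * I))).re / p = (∑ p ∈ pr N, c p * pw θ p).re := by
    rw [Complex.re_sum]
    refine Finset.sum_congr rfl fun p hp => ?_
    rw [pw_mul θ (mem_pr.1 hp).2.pos, Complex.div_ofReal_re]
  rw [e]
  exact Complex.abs_re_le_norm _

/-- **The weighted sums of `b(p)/p`.** -/
theorem weighted_ML {b : ℕ → ℝ} {B ν : ℝ} (hb : ∀ p, |b p| ≤ B) (h : ML b ν)
    {k : ℝ} (hk : 1 < k) (τ : ℝ) {ε : ℝ} (hε : 0 < ε) : ∃ C : ℝ, ∀ᶠ X : ℝ in atTop,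
    ‖∑ p ∈ pr ⌊X⌋₊, wt k τ X p * ((b p / p : ℝ) : ℂ) -
      (1 - 1 / k) * ν * (Real.log (Real.log X) : ℝ)‖ ≤ ε * Real.log (Real.log X) + C := by
  obtain ⟨C₀, hC₀⟩ := h ε hε
  obtain ⟨C₁, σ₀, hC₁0, hσ₀, hC₁⟩ := log_sum_pr
  have hB : 0 ≤ B := (abs_nonneg _).trans (hb 0)
  have hk1 : 0 < 1 - 1 / k := by
    have : 1 / k < 1 := (div_lt_one (by linarith)).2 hk
    linarith
  have hk2 : 1 - 1 / k ≤ 1 := by
    have : 0 < 1 / k := by positivity
    linarith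
  have hUt : Tendsto (fun X : ℝ => (Real.log X) ^ (1 - 1 / k)) atTop atTop :=
    (tendsto_rpow_atTop hk1).comp Real.tendsto_log_atTop
  refine ⟨B * ((1 + |τ|) * Real.exp 1) * C₁ + |C₀| + |ν| * Real.log 2 , ?_⟩
  filter_upwards [eventually_ge_atTop (Real.exp 1), hUt.eventually (eventually_ge_atTop 2),
    hUt.eventually (eventually_gt_atTop σ₀⁻¹)] with X h1 h2 h3
  have hX1 : 1 < X := by
    have := Real.exp_one_gt_d9
    linarith
  have hL1 : 1 ≤ Real.log X := by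
    have := Real.log_le_log (Real.exp_pos 1) h1
    rwa [Real.log_exp] at this
  set U : ℝ := (Real.log X) ^ (1 - 1 / k) with hU
  have hU0 : 0 < U := by linarith
  have hUL : U ≤ Real.log X := by
    have := Real.rpow_le_rpow_of_exponent_le hL1 hk2
    rwa [Real.rpow_one] at this
  have hσ : U⁻¹ < σ₀ := inv_lt_of_inv_lt₀ hσ₀ h3
  set N : ℕ := ⌊Real.exp U⌋₊ with hN
  have hNX : N ≤ ⌊X⌋₊ := by
    refine Nat.floor_le_floor ?_
    calc Real.exp U ≤ Real.exp (Real.log X) := Real.exp_le_exp.2 hUL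
      _ = X := Real.exp_log (by linarith)
  obtain ⟨hN3, hl1, hl2⟩ := loglog_floor h2
  rw [← hN] at hN3 hl1 hl2
  have hlogU : Real.log U = (1 - 1 / k) * Real.log (Real.log X) := by
    rw [hU, Real.log_rpow (by linarith)]
  have hll : 0 ≤ Real.log (Real.log X) := Real.log_nonneg hL1
  have hlu : Real.log U ≤ Real.log (Real.log X) := by
    rw [hlogU]
    nlinarith
  -- the sum up to `N`
  have e1 : ∑ p ∈ pr N, ((b p / p : ℝ) : ℂ) =
      ∑ p ∈ pr ⌊X⌋₊, (if p ≤ N then 1 else 0) * ((b p / p : ℝ) : ℂ) := by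
    simp only [ite_mul, one_mul, zero_mul]
    rw [← Finset.sum_filter]
    refine Finset.sum_congr ?_ fun _ _ => rfl
    ext p
    rw [Finset.mem_filter, mem_pr, mem_pr]
    constructor
    · rintro ⟨h4, h5⟩
      exact ⟨⟨h4.trans hNX, h5⟩, h4⟩
    · rintro ⟨⟨_, h5⟩, h4⟩
      exact ⟨h4, h5⟩
  have h4 : ‖∑ p ∈ pr ⌊X⌋₊, wt k τ X p * ((b p / p : ℝ) : ℂ) - ∑ p ∈ pr N, ((b p / p : ℝ) : ℂ)‖ ≤
      B * ((1 + |τ|) * Real.exp 1) * C₁ := by
    rw [e1, ← Finset.sum_sub_distrib]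
    refine (norm_sum_le _ _).trans ?_
    have h5 : ∀ p ∈ pr ⌊X⌋₊, ‖wt k τ X p * ((b p / p : ℝ) : ℂ) -
        (if p ≤ N then 1 else 0) * ((b p / p : ℝ) : ℂ)‖ ≤
        B * ((1 + |τ|) * Real.exp 1) * (U⁻¹ * (Real.log p * (p : ℝ) ^ (-(1 + U⁻¹)))) := by
      intro p hp
      have hpp := (mem_pr.1 hp).2
      have hp0 : (0 : ℝ) < p := by exact_mod_cast hpp.pos
      rw [← sub_mul, norm_mul, Complex.norm_real, Real.norm_eq_abs, abs_div, abs_of_pos hp0]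
      have h6 := wt_cut hk τ hX1 hpp
      rw [← hU, ← hN] at h6
      calc ‖wt k τ X p - if p ≤ N then 1 else 0‖ * (|b p| / p) =
            |b p| * (‖wt k τ X p - if p ≤ N then 1 else 0‖ / p) := by ring
        _ ≤ B * ((1 + |τ|) * Real.exp 1 * (U⁻¹ * (Real.log p * (p : ℝ) ^ (-(1 + U⁻¹))))) :=
            mul_le_mul (hb p) h6 (by positivity) hB
        _ = _ := by ring
    refine (Finset.sum_le_sum h5).trans ?_
    rw [← Finset.mul_sum]
    exact mul_le_mul_of_nonneg_left (hC₁ U⁻¹ (inv_pos.2 hU0) hσ _) (by positivity)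
  have h5 := hC₀ N hN3
  have h6 : ‖∑ p ∈ pr N, ((b p / p : ℝ) : ℂ) - (1 - 1 / k) * ν * (Real.log (Real.log X) : ℝ)‖ ≤
      ε * Real.log (Real.log X) + |C₀| + |ν| * Real.log 2 := by
    have e2 : ∑ p ∈ pr N, ((b p / p : ℝ) : ℂ) - (1 - 1 / k) * ν * (Real.log (Real.log X) : ℝ) =
        ((∑ p ∈ pr N, b p / p - ν * Real.log U : ℝ) : ℂ) := by
      rw [hlogU]
      push_cast
      ring
    rw [e2, Complex.norm_real, Real.norm_eq_abs]
    have e3 : ∑ p ∈ pr N, b p / p - ν * Real.log U =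
        (∑ p ∈ pr N, b p / p - ν * Real.log (Real.log N)) + ν * (Real.log (Real.log N) - Real.log U) := by
      ring
    rw [e3]
    refine (abs_add_le _ _).trans ?_
    rw [abs_mul]
    have h7 : |Real.log (Real.log N) - Real.log U| ≤ Real.log 2 := by
      rw [abs_le]
      have : 0 ≤ Real.log 2 := Real.log_nonneg (by norm_num)
      constructor <;> linarith
    have h8 := mul_le_mul_of_nonneg_left h7 (abs_nonneg ν)
    have h9 : ε * Real.log (Real.log N) ≤ ε * Real.log (Real.log X) :=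
      mul_le_mul_of_nonneg_left (hl1.trans hlu) hε.le
    have h10 := le_abs_self C₀
    linarith
  have e4 : ∑ p ∈ pr ⌊X⌋₊, wt k τ X p * ((b p / p : ℝ) : ℂ) -
      (1 - 1 / k) * ν * (Real.log (Real.log X) : ℝ) =
      (∑ p ∈ pr ⌊X⌋₊, wt k τ X p * ((b p / p : ℝ) : ℂ) - ∑ p ∈ pr N, ((b p / p : ℝ) : ℂ)) +
      (∑ p ∈ pr N, ((b p / p : ℝ) : ℂ) - (1 - 1 / k) * ν * (Real.log (Real.log X) : ℝ)) := by ring
  rw [e4]
  refine (norm_add_le _ _).trans ?_
  linarith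

/-- **The comparison of the two sums.** -/
theorem Par.compare_ML (H : Par G α) {ν : ℝ} (hν : ML (bG G α) ν) (hk : 1 < k) (τ : ℝ)
    {ε : ℝ} (hε : 0 < ε) : ∃ C : ℝ, ∀ᶠ X : ℝ in atTop,
    ‖Lw G α k τ X + Sw G α k τ X + (1 - 1 / k) * (ν / 2) * (Real.log (Real.log X) : ℝ)‖ ≤
      ε * Real.log (Real.log X) + C := by
  classical
  obtain ⟨C, hC⟩ := weighted_ML H.bG_le hν hk τ hε
  have hs : Summable fun n : ℕ => (d : ℝ) * (n : ℝ) ^ (-(3 / 2) : ℝ) :=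
    (Real.summable_nat_rpow.mpr (by norm_num)).mul_left _
  set K : ℝ := ∑' n : ℕ, (d : ℝ) * (n : ℝ) ^ (-(3 / 2) : ℝ) with hK
  refine ⟨K + |C|, ?_⟩
  filter_upwards [hC, eventually_ge_atTop (Real.exp 1)] with X h1 h2
  have hX1 : 1 < X := by
    have := Real.exp_one_gt_d9
    linarith
  have hL1 : 1 ≤ Real.log X := by
    have := Real.log_le_log (Real.exp_pos 1) h2
    rwa [Real.log_exp] at this
  have hll : 0 ≤ Real.log (Real.log X) := Real.log_nonneg hL1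
  have e1 : ∑ p ∈ pr ⌊X⌋₊, wt k τ X p * ((bG G α p / p : ℝ) : ℂ) =
      ∑ p ∈ up G X, wt k τ X p * ((bsq α p / p : ℝ) : ℂ) := by
    have h3 : up G X = (pr ⌊X⌋₊).filter G := by
      ext p
      rw [mem_up, Finset.mem_filter, mem_pr]
      exact ⟨fun h => ⟨⟨h.1, H.prime p h.2⟩, h.2⟩, fun h => ⟨h.1.1, h.2⟩⟩
    rw [h3, Finset.sum_filter]
    refine Finset.sum_congr rfl fun p _ => ?_
    unfold bG
    split_ifs
    · rfl
    · simp
  rw [e1] at h1
  have h4 : ‖Lw G α k τ X + Sw G α k τ X +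
      2⁻¹ * ∑ p ∈ up G X, wt k τ X p * ((bsq α p / p : ℝ) : ℂ)‖ ≤ K := by
    unfold Lw Sw
    rw [Finset.mul_sum, ← Finset.sum_add_distrib, ← Finset.sum_add_distrib]
    refine (norm_sum_le _ _).trans ?_
    refine le_trans (Finset.sum_le_sum fun p hp => ?_) (hs.sum_le_tsum (up G X) fun n _ => by positivity)
    have hGp := (mem_up.1 hp).2
    have h5 := H.five p hGp
    have e2 : wt k τ X p * (lsum α p : ℝ) + wt k τ X p * (ssum α p : ℝ) +
        2⁻¹ * (wt k τ X p * ((bsq α p / p : ℝ) : ℂ)) =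
        wt k τ X p * ((lsum α p + ssum α p + bsq α p / p / 2 : ℝ) : ℂ) := by
      push_cast
      ring
    rw [e2, norm_mul, Complex.norm_real, Real.norm_eq_abs]
    calc ‖wt k τ X p‖ * |lsum α p + ssum α p + bsq α p / p / 2| ≤
          1 * (d * (p : ℝ) ^ (-(3 / 2) : ℝ)) :=
          mul_le_mul (wt_norm_le k τ p hX1.le (by omega)) (H.expand hGp) (abs_nonneg _) zero_le_one
      _ = _ := one_mul _
  have e3 : Lw G α k τ X + Sw G α k τ X + (1 - 1 / k) * (ν / 2) * (Real.log (Real.log X) : ℝ) =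
      (Lw G α k τ X + Sw G α k τ X + 2⁻¹ * ∑ p ∈ up G X, wt k τ X p * ((bsq α p / p : ℝ) : ℂ)) -
      2⁻¹ * (∑ p ∈ up G X, wt k τ X p * ((bsq α p / p : ℝ) : ℂ) -
        (1 - 1 / k) * ν * (Real.log (Real.log X) : ℝ)) := by ring
  rw [e3]
  refine (norm_sub_le _ _).trans ?_
  have h6 : ‖(2⁻¹ : ℂ) * (∑ p ∈ up G X, wt k τ X p * ((bsq α p / p : ℝ) : ℂ) -
        (1 - 1 / k) * ν * (Real.log (Real.log X) : ℝ))‖ ≤ ε * Real.log (Real.log X) + |C| := by
    rw [norm_mul]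
    have h7 : ‖(2⁻¹ : ℂ)‖ = 2⁻¹ := by simp
    rw [h7]
    have h8 : 0 ≤ ε * Real.log (Real.log X) := by positivity
    have h9 := le_abs_self C
    have h10 : 0 ≤ |C| := abs_nonneg C
    calc 2⁻¹ * ‖∑ p ∈ up G X, wt k τ X p * ((bsq α p / p : ℝ) : ℂ) -
        (1 - 1 / k) * ν * (Real.log (Real.log X) : ℝ)‖ ≤ 2⁻¹ * (ε * Real.log (Real.log X) + C) :=
          mul_le_mul_of_nonneg_left h1 (by norm_num)
      _ ≤ _ := by linarith
  linarith

/-- **The law for the logarithms and the law for the character sums.** -/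
theorem Par.law_bias_ML (H : Par G α) {ν : ℝ} (hν : ML (bG G α) ν) (hk : 1 < k) (τ : ℝ)
    (ρ : ℂ) : WL (Lw G α k τ) k ρ ↔ WL (Sw G α k τ) k (-(ρ + ν / 2)) := by
  have h0 : WL (fun X => Lw G α k τ X + Sw G α k τ X) k (-(ν / 2)) := by
    intro ε hε
    obtain ⟨C, hC⟩ := H.compare_ML hν hk τ hε
    refine ⟨C, ?_⟩
    unfold XLaw
    filter_upwards [hC] with X h1
    have e : Lw G α k τ X + Sw G α k τ X - (1 - 1 / k) * (-(ν / 2)) * (Real.log (Real.log X) : ℝ) =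
      Lw G α k τ X + Sw G α k τ X + (1 - 1 / k) * (ν / 2) * (Real.log (Real.log X) : ℝ) := by ring
    rwa [e]
  constructor
  · intro h
    have h1 := WL_add h0 (WL_neg h)
    have e1 : (fun X => Lw G α k τ X + Sw G α k τ X + -Lw G α k τ X) = Sw G α k τ := by
      funext X
      ring
    have e2 : (-(ν / 2) + -ρ : ℂ) = -(ρ + ν / 2) := by ring
    rwa [e1, e2] at h1
  · intro h
    have h1 := WL_add h0 (WL_neg h)
    have e1 : (fun X => Lw G α k τ X + Sw G α k τ X + -Sw G α k τ X) = Lw G α k τ := by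
      funext X
      ring
    have e2 : (-(ν / 2) + -(-(ρ + ν / 2)) : ℂ) = ρ := by ring
    rwa [e1, e2] at h1

/-- growth of the character sums -/
theorem Par.growth_bias_ML (H : Par G α) {ν : ℝ} (hν : ML (bG G α) ν) {k : ℝ}
    (hk : 1 < k) (τ : ℝ) : (∀ ε : ℝ, 0 < ε → ∀ᶠ X : ℝ in atTop, ‖Sw G α k τ X‖ ≤ X ^ ε) ↔
      (∀ ε : ℝ, 0 < ε → ∀ᶠ X : ℝ in atTop, ‖Lw G α k τ X‖ ≤ X ^ ε) := by
  obtain ⟨C, hC⟩ := H.compare_ML hν hk τ one_pos
  have hclose : ∀ᶠ X : ℝ in atTop, ‖Lw G α k τ X + Sw G α k τ X‖ ≤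
      (1 + ‖((1 - 1 / k) * (ν / 2) : ℂ)‖ + |C|) * Real.log (Real.log X) +
        (1 + ‖((1 - 1 / k) * (ν / 2) : ℂ)‖ + |C|) := by
    filter_upwards [hC, eventually_ge_atTop (Real.exp 1)] with X h1 h2
    have hL1 : 1 ≤ Real.log X := by
      have := Real.log_le_log (Real.exp_pos 1) h2
      rwa [Real.log_exp] at this
    have hll : 0 ≤ Real.log (Real.log X) := Real.log_nonneg hL1
    have h3 := norm_sub_le (Lw G α k τ X + Sw G α k τ X +
      (1 - 1 / k) * (ν / 2) * (Real.log (Real.log X) : ℝ))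
      ((1 - 1 / k) * (ν / 2) * (Real.log (Real.log X) : ℝ))
    rw [add_sub_cancel_right, norm_mul ((1 - 1 / k) * (ν / 2) : ℂ), Complex.norm_real,
      Real.norm_of_nonneg hll] at h3
    have h4 := le_abs_self C
    have h5 : 0 ≤ |C| * Real.log (Real.log X) := by positivity
    have h6 : 0 ≤ ‖((1 - 1 / k) * (ν / 2) : ℂ)‖ := norm_nonneg _
    nlinarith
  constructor
  · intro h
    refine growth_close (V := Sw G α k τ) (C := 1 + ‖((1 - 1 / k) * (ν / 2) : ℂ)‖ + |C|) ?_ h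
    filter_upwards [hclose] with X h1
    rwa [add_comm (Sw G α k τ X)]
  · intro h
    exact growth_close hclose h

end Pool.Agent.D0H40.AR
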