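import Pool.Agent.D0H40.AR.Sum
import Pool.Agent.W401.Cheb.Mean0
import Pool.Agent.Erdos456.Mertens

/-! Partial summation: from mean values over the primes to the weighted sums of `b(p)/p`. -/

set_option autoImplicit false

namespace Pool.Agent.D0H40.AR

open Complex MeasureTheory Filter Topology Set
open Pool.Agent.W401.Cheb (pr M mem_pr tendsto_pc)
open Pool.Agent.W189.ML (norm_exp_sub_one_le_of_re)

theorem sum_pr (a : ℕ → ℝ) (N : ℕ) :
    ∑ p ∈ pr N, a p = ∑ n ∈ Finset.range (N + 1), if n.Prime then a n else 0 := by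
  unfold pr
  rw [Finset.sum_filter]

theorem pr_zero (a : ℕ → ℝ) : ∑ p ∈ pr 0, a p = 0 := by
  rw [sum_pr]
  simp [Nat.not_prime_zero]

theorem pr_succ (a : ℕ → ℝ) (N : ℕ) :
    ∑ p ∈ pr (N + 1), a p = ∑ p ∈ pr N, a p + if (N + 1).Prime then a (N + 1) else 0 := by
  rw [sum_pr, sum_pr, Finset.sum_range_succ]

/-- Abel summation -/
theorem abel (a : ℕ → ℝ) (N : ℕ) : ∑ p ∈ pr N, a p / p = (∑ p ∈ pr N, a p) / (N + 1) +
    ∑ n ∈ Finset.range N, (∑ p ∈ pr (n + 1), a p) / ((n + 1) * (n + 2)) := by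
  induction N with
  | zero => rw [pr_zero, pr_zero]; simp
  | succ N ih =>
    rw [pr_succ, ih, Finset.sum_range_succ]
    have h1 := pr_succ a N
    set T := ∑ p ∈ pr N, a p
    set T' := ∑ p ∈ pr (N + 1), a p
    have h2 : (0 : ℝ) < N + 1 := by positivity
    have h3 : (0 : ℝ) < N + 2 := by positivity
    have e : (if (N + 1).Prime then a (N + 1) / ((N + 1 : ℕ) : ℝ) else 0) = (T' - T) / (N + 1) := by
      rw [h1, add_sub_cancel_left]
      split_ifs
      · push_cast; rfl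
      · simp
    rw [e]
    push_cast
    field_simp
    ring

theorem tele (N : ℕ) : (1 : ℝ) / (N + 1) + ∑ n ∈ Finset.range N, (1 : ℝ) / ((n + 1) * (n + 2)) = 1 := by
  induction N with
  | zero => simp
  | succ N ih =>
    rw [Finset.sum_range_succ]
    have h2 : (0 : ℝ) < N + 1 := by positivity
    have h3 : (0 : ℝ) < N + 2 := by positivity
    have e : (1 : ℝ) / ((N + 1 : ℕ) + 1) = 1 / (N + 1) - 1 / ((N + 1) * (N + 2)) := by
      push_cast
      field_simp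
      ring
    rw [e]
    linarith

theorem card_pr (N : ℕ) : ∑ _p ∈ pr N, (1 : ℝ) = Nat.primeCounting N := by
  rw [Finset.sum_const, nsmul_eq_mul, mul_one]
  unfold pr Nat.primeCounting Nat.primeCounting'
  rw [Nat.count_eq_card_filter_range]

theorem abel_bound (a : ℕ → ℝ) {ε C : ℝ}
    (h : ∀ N, |∑ p ∈ pr N, a p| ≤ ε * Nat.primeCounting N + C) (N : ℕ) :
    |∑ p ∈ pr N, a p / p| ≤ ε * ∑ p ∈ pr N, (1 : ℝ) / p + C := by
  have h1 := abel (fun _ => 1) N
  simp only [card_pr] at h1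
  rw [abel a N, h1]
  have h2 : |(∑ p ∈ pr N, a p) / (N + 1)| ≤ (ε * Nat.primeCounting N + C) / (N + 1) := by
    rw [abs_div, abs_of_pos (by positivity : (0 : ℝ) < N + 1)]
    exact div_le_div_of_nonneg_right (h N) (by positivity)
  have h3 : |∑ n ∈ Finset.range N, (∑ p ∈ pr (n + 1), a p) / ((n + 1) * (n + 2))| ≤
      ∑ n ∈ Finset.range N, (ε * Nat.primeCounting (n + 1) + C) / (((n : ℝ) + 1) * (n + 2)) := by
    refine (Finset.abs_sum_le_sum_abs _ _).trans (Finset.sum_le_sum fun n _ => ?_)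
    have h4 : (0 : ℝ) < ((n : ℝ) + 1) * (n + 2) := by positivity
    rw [abs_div, abs_of_pos h4]
    exact div_le_div_of_nonneg_right (h (n + 1)) h4.le
  refine (abs_add_le _ _).trans ((add_le_add h2 h3).trans (le_of_eq ?_))
  have h5 : ∑ n ∈ Finset.range N, (ε * Nat.primeCounting (n + 1) + C) / (((n : ℝ) + 1) * (n + 2)) =
      ε * ∑ n ∈ Finset.range N, (Nat.primeCounting (n + 1) : ℝ) / (((n : ℝ) + 1) * (n + 2)) +
        C * ∑ n ∈ Finset.range N, (1 : ℝ) / (((n : ℝ) + 1) * (n + 2)) := by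
    rw [Finset.mul_sum, Finset.mul_sum, ← Finset.sum_add_distrib]
    refine Finset.sum_congr rfl fun n _ => ?_
    ring
  rw [h5]
  have h6 := tele N
  linear_combination C * h6

theorem mertens : ∃ C : ℝ, 0 ≤ C ∧ ∀ N : ℕ, 3 ≤ N →
    |∑ p ∈ pr N, (1 : ℝ) / p - Real.log (Real.log N)| ≤ C := by
  obtain ⟨C, hC⟩ := Pool.Agent.Erdos456.Mert.mertens_inv
  refine ⟨C, (abs_nonneg _).trans (hC 3 le_rfl), fun N hN => ?_⟩
  have e : pr N = (Finset.Icc 1 N).filter Nat.Prime := by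
    ext p
    rw [mem_pr, Finset.mem_filter, Finset.mem_Icc]
    constructor
    · rintro ⟨h1, h2⟩
      exact ⟨⟨h2.one_le, h1⟩, h2⟩
    · rintro ⟨⟨_, h1⟩, h2⟩
      exact ⟨h1, h2⟩
  rw [e]
  exact hC N hN

theorem mean_log {b : ℕ → ℝ} {ν : ℝ} (h : Tendsto (M b) atTop (𝓝 ν)) {ε : ℝ} (hε : 0 < ε) :
    ∃ C : ℝ, ∀ N : ℕ, 3 ≤ N → |∑ p ∈ pr N, b p / p - ν * Real.log (Real.log N)| ≤
      ε * Real.log (Real.log N) + C := by
  obtain ⟨C₁, hC₁0, hC₁⟩ := mertens
  set a : ℕ → ℝ := fun p => b p - ν with ha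
  have hsum : ∀ N, ∑ p ∈ pr N, a p = ∑ p ∈ pr N, b p - ν * Nat.primeCounting N := by
    intro N
    rw [ha, Finset.sum_sub_distrib, ← card_pr, Finset.mul_sum]
    simp
  obtain ⟨N₀, hN₀⟩ := (Metric.tendsto_atTop.1 h) ε hε
  set C₀ : ℝ := ∑ p ∈ pr N₀, |a p| with hC₀
  have hC₀0 : 0 ≤ C₀ := Finset.sum_nonneg fun _ _ => abs_nonneg _
  have hT : ∀ N, |∑ p ∈ pr N, a p| ≤ ε * Nat.primeCounting N + C₀ := by
    intro N
    have hπ : (0 : ℝ) ≤ Nat.primeCounting N := Nat.cast_nonneg _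
    rcases le_or_gt N₀ N with h1 | h1
    · have h2 := hN₀ N h1
      rw [Real.dist_eq] at h2
      rcases hπ.eq_or_lt with h3 | h3
      · have h4 : pr N = ∅ := by
          have h5 := card_pr N
          rw [← h3, Finset.sum_const, nsmul_eq_mul, mul_one] at h5
          exact Finset.card_eq_zero.1 (by exact_mod_cast h5)
        rw [h4, Finset.sum_empty, abs_zero]
        positivity
      · have h4 : ∑ p ∈ pr N, a p = (M b N - ν) * Nat.primeCounting N := by
          rw [hsum]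
          unfold M
          field_simp
        rw [h4, abs_mul, abs_of_nonneg hπ]
        have h5 := mul_le_mul_of_nonneg_right h2.le hπ
        linarith
    · refine (Finset.abs_sum_le_sum_abs _ _).trans ?_
      have h2 : ∑ p ∈ pr N, |a p| ≤ C₀ := by
        refine Finset.sum_le_sum_of_subset_of_nonneg ?_ fun _ _ _ => abs_nonneg _
        intro p hp
        rw [mem_pr] at hp ⊢
        exact ⟨hp.1.trans h1.le, hp.2⟩
      have : 0 ≤ ε * Nat.primeCounting N := by positivity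
      linarith
  refine ⟨ε * C₁ + C₀ + |ν| * C₁, fun N hN => ?_⟩
  have h1 := abel_bound a hT N
  have h2 := hC₁ N hN
  have e : ∑ p ∈ pr N, b p / p - ν * Real.log (Real.log N) =
      ∑ p ∈ pr N, a p / p + ν * (∑ p ∈ pr N, (1 : ℝ) / p - Real.log (Real.log N)) := by
    have : ∑ p ∈ pr N, a p / p = ∑ p ∈ pr N, b p / p - ν * ∑ p ∈ pr N, (1 : ℝ) / p := by
      rw [Finset.mul_sum, ← Finset.sum_sub_distrib]
      refine Finset.sum_congr rfl fun p _ => ?_
      rw [ha]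
      ring
    rw [this]
    ring
  rw [e]
  refine (abs_add_le _ _).trans ?_
  rw [abs_mul]
  have h3 : |ν| * |∑ p ∈ pr N, (1 : ℝ) / p - Real.log (Real.log N)| ≤ |ν| * C₁ :=
    mul_le_mul_of_nonneg_left h2 (abs_nonneg _)
  have h4 : ε * ∑ p ∈ pr N, (1 : ℝ) / p ≤ ε * (Real.log (Real.log N) + C₁) := by
    refine mul_le_mul_of_nonneg_left ?_ hε.le
    linarith [(abs_le.1 h2).2]
  linarith

/-- the logarithmic sum over the finite sets of primes -/
theorem log_sum_pr : ∃ C σ₀ : ℝ, 0 ≤ C ∧ 0 < σ₀ ∧ ∀ σ : ℝ, 0 < σ → σ < σ₀ → ∀ N : ℕ,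
    ∑ p ∈ pr N, σ * (Real.log p * (p : ℝ) ^ (-(1 + σ))) ≤ C := by
  obtain ⟨C, σ₀, hσ₀, h⟩ := log_sum_Q
  refine ⟨max C 0, σ₀, le_max_right _ _, hσ₀, fun σ h1 h2 N => ?_⟩
  obtain ⟨hs, hle⟩ := h σ h1 h2
  rw [← Finset.mul_sum]
  refine le_trans (mul_le_mul_of_nonneg_left ?_ h1.le) (hle.trans (le_max_left _ _))
  have e : ∑ p ∈ pr N, Real.log p * (p : ℝ) ^ (-(1 + σ)) =
      ∑ p ∈ (Finset.range (N + 1)).subtype Nat.Prime, Real.log ((p : ℕ) : ℝ) * ((p : ℕ) : ℝ) ^ (-(1 + σ)) := by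
    unfold pr
    rw [Finset.sum_subtype_eq_sum_filter (s := Finset.range (N + 1)) (p := Nat.Prime)
      (f := fun p : ℕ => Real.log (p : ℝ) * (p : ℝ) ^ (-(1 + σ)))]
  rw [e]
  refine Summable.sum_le_tsum (f := fun p : Nat.Primes => Real.log (p : ℕ) * ((p : ℕ) : ℝ) ^ (-(1 + σ)))
    _ (fun p _ => ?_) hs
  have hp1 : (1 : ℝ) ≤ (p : ℕ) := by exact_mod_cast p.2.one_le
  have := Real.log_nonneg hp1
  positivity

theorem wt_norm_le (k τ : ℝ) {X : ℝ} (p : ℕ) (hX : 1 ≤ X) (hp : 1 ≤ p) : ‖wt k τ X p‖ ≤ 1 := by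
  unfold wt
  rw [Complex.norm_exp, Real.exp_le_one_iff, Complex.neg_re, Complex.mul_re]
  simp only [Complex.add_re, Complex.one_re, Complex.mul_re, Complex.ofReal_re, Complex.I_re, mul_zero,
    Complex.ofReal_im, Complex.I_im, mul_one, sub_self, add_zero, one_mul, sub_zero]
  have h1 : 0 ≤ Real.log X := Real.log_nonneg hX
  have h2 : 0 ≤ Real.log p := Real.log_nonneg (by exact_mod_cast hp)
  have : 0 ≤ Real.log p ^ k / Real.log X ^ (k - 1) := by positivity
  linarith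

/-- the weight in terms of `U = (log X)^(1-1/k)` -/
theorem wt_eq {k : ℝ} (hk : 1 < k) (τ : ℝ) {X : ℝ} (hX : 1 < X) {p : ℕ} (hp : 1 ≤ p) :
    wt k τ X p = exp (-((1 + τ * I) * ((Real.log p / (Real.log X) ^ (1 - 1 / k)) ^ k : ℝ))) := by
  have h1 : 0 < Real.log X := Real.log_pos hX
  have h2 : 0 ≤ Real.log p := Real.log_nonneg (by exact_mod_cast hp)
  have hk0 : k ≠ 0 := by linarith
  unfold wt
  rw [Real.div_rpow h2 (by positivity), ← Real.rpow_mul h1.le]
  congr 6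
  field_simp

theorem norm_one_tau (τ : ℝ) : ‖(1 : ℂ) + τ * I‖ ≤ 1 + |τ| := by
  refine (norm_add_le _ _).trans ?_
  rw [norm_one, norm_mul, Complex.norm_real, Complex.norm_I, mul_one, Real.norm_eq_abs]

/-- the comparison of the weight with the sharp cut-off at `exp ((log X)^(1-1/k))` -/
theorem wt_cut {k : ℝ} (hk : 1 < k) (τ : ℝ) {X : ℝ} (hX : 1 < X) {p : ℕ} (hp : p.Prime) :
    ‖wt k τ X p - if p ≤ ⌊Real.exp ((Real.log X) ^ (1 - 1 / k))⌋₊ then 1 else 0‖ / p ≤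
      ((1 + |τ|) * Real.exp 1) * (((Real.log X) ^ (1 - 1 / k))⁻¹ *
        (Real.log p * (p : ℝ) ^ (-(1 + ((Real.log X) ^ (1 - 1 / k))⁻¹)))) := by
  have hL : 0 < Real.log X := Real.log_pos hX
  have hp0 : (0 : ℝ) < p := by exact_mod_cast hp.pos
  have hlp : 0 < Real.log p := Real.log_pos (by exact_mod_cast hp.one_lt)
  rw [wt_eq hk τ hX hp.one_le]
  set U : ℝ := (Real.log X) ^ (1 - 1 / k) with hU
  have hU0 : 0 < U := Real.rpow_pos_of_pos hL _
  have hpow : (p : ℝ) ^ (-(1 + U⁻¹)) = (p : ℝ)⁻¹ * Real.exp (-(Real.log p / U)) := by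
    rw [neg_add, Real.rpow_add hp0, Real.rpow_neg_one, Real.rpow_def_of_pos hp0]
    congr 2
    field_simp
  have he1 : 1 ≤ Real.exp 1 := Real.one_le_exp (by norm_num)
  have hτ : 1 ≤ 1 + |τ| := by linarith [abs_nonneg τ]
  rw [hpow]
  set y : ℝ := Real.log p / U with hy
  have hy0 : 0 < y := by positivity
  have eR : (1 + |τ|) * Real.exp 1 * (U⁻¹ * (Real.log p * ((p : ℝ)⁻¹ * Real.exp (-y)))) =
      ((1 + |τ|) * y * Real.exp (1 - y)) / p := by
    rw [sub_eq_add_neg, Real.exp_add, hy]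
    field_simp
  rw [eR]
  refine div_le_div_of_nonneg_right ?_ hp0.le
  by_cases hc : p ≤ ⌊Real.exp U⌋₊
  · rw [if_pos hc]
    have h1 : (p : ℝ) ≤ Real.exp U := (Nat.le_floor_iff (Real.exp_pos U).le).1 hc
    have h2 : Real.log p ≤ U := by
      have := Real.log_le_log hp0 h1
      rwa [Real.log_exp] at this
    have hy1 : y ≤ 1 := (div_le_one hU0).2 h2
    have h3 : y ^ k ≤ y := by
      have := Real.rpow_le_rpow_of_exponent_ge hy0 hy1 hk.le
      rwa [Real.rpow_one] at this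
    have h4 : ‖exp (-((1 + τ * I) * ((y ^ k : ℝ) : ℂ))) - 1‖ ≤ (1 + |τ|) * y ^ k := by
      refine (norm_exp_sub_one_le_of_re ?_).trans ?_
      · rw [Complex.neg_re, Complex.re_mul_ofReal]
        have : ((1 : ℂ) + τ * I).re = 1 := by simp
        rw [this, one_mul]
        have : 0 ≤ y ^ k := by positivity
        linarith
      · rw [norm_neg, norm_mul, Complex.norm_real, Real.norm_eq_abs, abs_of_nonneg (by positivity)]
        exact mul_le_mul_of_nonneg_right (norm_one_tau τ) (by positivity)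
    refine h4.trans ?_
    have h5 : 1 ≤ Real.exp (1 - y) := Real.one_le_exp (by linarith)
    calc (1 + |τ|) * y ^ k ≤ (1 + |τ|) * y * 1 := by
          rw [mul_one]
          exact mul_le_mul_of_nonneg_left h3 (by positivity)
      _ ≤ (1 + |τ|) * y * Real.exp (1 - y) := mul_le_mul_of_nonneg_left h5 (by positivity)
  · rw [if_neg hc, sub_zero]
    push Not at hc
    have h1 : Real.exp U < p := (Nat.floor_lt (Real.exp_pos U).le).1 hc
    have h2 : U ≤ Real.log p := by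
      have := Real.log_le_log (Real.exp_pos U) h1.le
      rwa [Real.log_exp] at this
    have hy1 : 1 ≤ y := (one_le_div hU0).2 h2
    have h3 : y ≤ y ^ k := by
      have := Real.rpow_le_rpow_of_exponent_le hy1 hk.le
      rwa [Real.rpow_one] at this
    have h4 : ‖exp (-((1 + τ * I) * ((y ^ k : ℝ) : ℂ)))‖ ≤ Real.exp (-y) := by
      rw [Complex.norm_exp, Complex.neg_re, Complex.re_mul_ofReal]
      have : ((1 : ℂ) + τ * I).re = 1 := by simp
      rw [this, one_mul]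
      exact Real.exp_le_exp.2 (by linarith)
    refine h4.trans ?_
    have h5 : Real.exp (-y) ≤ Real.exp (1 - y) := Real.exp_le_exp.2 (by linarith)
    calc Real.exp (-y) ≤ 1 * Real.exp (1 - y) := by rw [one_mul]; exact h5
      _ ≤ (1 + |τ|) * y * Real.exp (1 - y) := by
          refine mul_le_mul_of_nonneg_right ?_ (Real.exp_pos _).le
          nlinarith

theorem loglog_floor {U : ℝ} (hU : 2 ≤ U) : 3 ≤ ⌊Real.exp U⌋₊ ∧
    Real.log (Real.log (⌊Real.exp U⌋₊ : ℝ)) ≤ Real.log U ∧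
    Real.log U - Real.log 2 ≤ Real.log (Real.log (⌊Real.exp U⌋₊ : ℝ)) := by
  have h1 : (4 : ℝ) ≤ Real.exp U := by
    have h2 := Real.exp_le_exp.2 hU
    have h3 := Real.exp_one_gt_d9
    have h4 : Real.exp 2 = Real.exp 1 * Real.exp 1 := by
      rw [← Real.exp_add]; norm_num
    nlinarith
  have h5 : 4 ≤ ⌊Real.exp U⌋₊ := Nat.le_floor (by exact_mod_cast h1)
  have h6 : Real.exp U < (⌊Real.exp U⌋₊ : ℝ) + 1 := Nat.lt_floor_add_one _
  have h7 : (⌊Real.exp U⌋₊ : ℝ) ≤ Real.exp U := Nat.floor_le (Real.exp_pos U).le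
  have h8 : (4 : ℝ) ≤ (⌊Real.exp U⌋₊ : ℝ) := by exact_mod_cast h5
  set n : ℝ := (⌊Real.exp U⌋₊ : ℝ) with hn
  have h9 : Real.log n ≤ U := by
    have := Real.log_le_log (by linarith) h7
    rwa [Real.log_exp] at this
  have h10 : U / 2 ≤ Real.log n := by
    have h11 : Real.exp (U / 2) ≤ n := by
      have h12 : Real.exp U = Real.exp (U / 2) * Real.exp (U / 2) := by
        rw [← Real.exp_add]; ring_nf
      have h13 : 2 ≤ Real.exp (U / 2) := by
        have := Real.add_one_le_exp (U / 2)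
        linarith
      nlinarith
    have := Real.log_le_log (Real.exp_pos _) h11
    rwa [Real.log_exp] at this
  refine ⟨by omega, Real.log_le_log (by linarith) h9, ?_⟩
  have h14 := Real.log_le_log (by linarith) h10
  rwa [Real.log_div (by linarith) (by norm_num)] at h14

/-- **The weighted sums of `b(p)/p`.** -/
theorem weighted {b : ℕ → ℝ} {B ν : ℝ} (hb : ∀ p, |b p| ≤ B) (h : Tendsto (M b) atTop (𝓝 ν))
    {k : ℝ} (hk : 1 < k) (τ : ℝ) {ε : ℝ} (hε : 0 < ε) : ∃ C : ℝ, ∀ᶠ X : ℝ in atTop,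
    ‖∑ p ∈ pr ⌊X⌋₊, wt k τ X p * ((b p / p : ℝ) : ℂ) -
      (1 - 1 / k) * ν * (Real.log (Real.log X) : ℝ)‖ ≤ ε * Real.log (Real.log X) + C := by
  obtain ⟨C₀, hC₀⟩ := mean_log h hε
  obtain ⟨C₁, σ₀, hC₁0, hσ₀, hC₁⟩ := log_sum_pr
  have hB : 0 ≤ B := (abs_nonneg _).trans (hb 0)
  have hk1 : 0 < 1 - 1 / k := by
    have : 1 / k < 1 := (div_lt_one (by linarith)).2 hk
    linarith
  have hk2 : 1 - 1 / k ≤ 1 := by
    have : 0 < 1 / k := by positivity
    linarith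
  have hUt : Tendsto (fun X : ℝ => (Real.log X) ^ (1 - 1 / k)) atTop atTop :=
    (tendsto_rpow_atTop hk1).comp Real.tendsto_log_atTop
  refine ⟨B * ((1 + |τ|) * Real.exp 1) * C₁ + |C₀| + |ν| * Real.log 2 , ?_⟩
  filter_upwards [eventually_ge_atTop (Real.exp 1), hUt.eventually (eventually_ge_atTop 2),
    hUt.eventually (eventually_gt_atTop σ₀⁻¹)] with X h1 h2 h3
  have hX1 : 1 < X := by
    have := Real.exp_one_gt_d9
    linarith
  have hL1 : 1 ≤ Real.log X := by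
    have := Real.log_le_log (Real.exp_pos 1) h1
    rwa [Real.log_exp] at this
  set U : ℝ := (Real.log X) ^ (1 - 1 / k) with hU
  have hU0 : 0 < U := by linarith
  have hUL : U ≤ Real.log X := by
    have := Real.rpow_le_rpow_of_exponent_le hL1 hk2
    rwa [Real.rpow_one] at this
  have hσ : U⁻¹ < σ₀ := inv_lt_of_inv_lt₀ hσ₀ h3
  set N : ℕ := ⌊Real.exp U⌋₊ with hN
  have hNX : N ≤ ⌊X⌋₊ := by
    refine Nat.floor_le_floor ?_
    calc Real.exp U ≤ Real.exp (Real.log X) := Real.exp_le_exp.2 hUL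
      _ = X := Real.exp_log (by linarith)
  obtain ⟨hN3, hl1, hl2⟩ := loglog_floor h2
  rw [← hN] at hN3 hl1 hl2
  have hlogU : Real.log U = (1 - 1 / k) * Real.log (Real.log X) := by
    rw [hU, Real.log_rpow (by linarith)]
  have hll : 0 ≤ Real.log (Real.log X) := Real.log_nonneg hL1
  have hlu : Real.log U ≤ Real.log (Real.log X) := by
    rw [hlogU]
    nlinarith
  -- the sum up to `N`
  have e1 : ∑ p ∈ pr N, ((b p / p : ℝ) : ℂ) =
      ∑ p ∈ pr ⌊X⌋₊, (if p ≤ N then 1 else 0) * ((b p / p : ℝ) : ℂ) := by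
    simp only [ite_mul, one_mul, zero_mul]
    rw [← Finset.sum_filter]
    refine Finset.sum_congr ?_ fun _ _ => rfl
    ext p
    rw [Finset.mem_filter, mem_pr, mem_pr]
    constructor
    · rintro ⟨h4, h5⟩
      exact ⟨⟨h4.trans hNX, h5⟩, h4⟩
    · rintro ⟨⟨_, h5⟩, h4⟩
      exact ⟨h4, h5⟩
  have h4 : ‖∑ p ∈ pr ⌊X⌋₊, wt k τ X p * ((b p / p : ℝ) : ℂ) - ∑ p ∈ pr N, ((b p / p : ℝ) : ℂ)‖ ≤
      B * ((1 + |τ|) * Real.exp 1) * C₁ := by
    rw [e1, ← Finset.sum_sub_distrib]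
    refine (norm_sum_le _ _).trans ?_
    have h5 : ∀ p ∈ pr ⌊X⌋₊, ‖wt k τ X p * ((b p / p : ℝ) : ℂ) -
        (if p ≤ N then 1 else 0) * ((b p / p : ℝ) : ℂ)‖ ≤
        B * ((1 + |τ|) * Real.exp 1) * (U⁻¹ * (Real.log p * (p : ℝ) ^ (-(1 + U⁻¹)))) := by
      intro p hp
      have hpp := (mem_pr.1 hp).2
      have hp0 : (0 : ℝ) < p := by exact_mod_cast hpp.pos
      rw [← sub_mul, norm_mul, Complex.norm_real, Real.norm_eq_abs, abs_div, abs_of_pos hp0]
      have h6 := wt_cut hk τ hX1 hpp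
      rw [← hU, ← hN] at h6
      calc ‖wt k τ X p - if p ≤ N then 1 else 0‖ * (|b p| / p) =
            |b p| * (‖wt k τ X p - if p ≤ N then 1 else 0‖ / p) := by ring
        _ ≤ B * ((1 + |τ|) * Real.exp 1 * (U⁻¹ * (Real.log p * (p : ℝ) ^ (-(1 + U⁻¹))))) :=
            mul_le_mul (hb p) h6 (by positivity) hB
        _ = _ := by ring
    refine (Finset.sum_le_sum h5).trans ?_
    rw [← Finset.mul_sum]
    exact mul_le_mul_of_nonneg_left (hC₁ U⁻¹ (inv_pos.2 hU0) hσ _) (by positivity)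
  have h5 := hC₀ N hN3
  have h6 : ‖∑ p ∈ pr N, ((b p / p : ℝ) : ℂ) - (1 - 1 / k) * ν * (Real.log (Real.log X) : ℝ)‖ ≤
      ε * Real.log (Real.log X) + |C₀| + |ν| * Real.log 2 := by
    have e2 : ∑ p ∈ pr N, ((b p / p : ℝ) : ℂ) - (1 - 1 / k) * ν * (Real.log (Real.log X) : ℝ) =
        ((∑ p ∈ pr N, b p / p - ν * Real.log U : ℝ) : ℂ) := by
      rw [hlogU]
      push_cast
      ring
    rw [e2, Complex.norm_real, Real.norm_eq_abs]
    have e3 : ∑ p ∈ pr N, b p / p - ν * Real.log U =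
        (∑ p ∈ pr N, b p / p - ν * Real.log (Real.log N)) + ν * (Real.log (Real.log N) - Real.log U) := by
      ring
    rw [e3]
    refine (abs_add_le _ _).trans ?_
    rw [abs_mul]
    have h7 : |Real.log (Real.log N) - Real.log U| ≤ Real.log 2 := by
      rw [abs_le]
      have : 0 ≤ Real.log 2 := Real.log_nonneg (by norm_num)
      constructor <;> linarith
    have h8 := mul_le_mul_of_nonneg_left h7 (abs_nonneg ν)
    have h9 : ε * Real.log (Real.log N) ≤ ε * Real.log (Real.log X) :=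
      mul_le_mul_of_nonneg_left (hl1.trans hlu) hε.le
    have h10 := le_abs_self C₀
    linarith
  have e4 : ∑ p ∈ pr ⌊X⌋₊, wt k τ X p * ((b p / p : ℝ) : ℂ) -
      (1 - 1 / k) * ν * (Real.log (Real.log X) : ℝ) =
      (∑ p ∈ pr ⌊X⌋₊, wt k τ X p * ((b p / p : ℝ) : ℂ) - ∑ p ∈ pr N, ((b p / p : ℝ) : ℂ)) +
      (∑ p ∈ pr N, ((b p / p : ℝ) : ℂ) - (1 - 1 / k) * ν * (Real.log (Real.log X) : ℝ)) := by ring
  rw [e4]
  refine (norm_add_le _ _).trans ?_
  linarith

end Pool.Agent.D0H40.AR
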