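import Pool.Agent.D0H40.AR.MeanLog
import Pool.Agent.Cov.PNT

/-! The sums `∑ c(p) p^(-1-iθ)`, `θ ≠ 0`, for bounded `c` with a mean value over the primes. -/

set_option autoImplicit false

namespace Pool.Agent.D0H40.AR

open Complex MeasureTheory Filter Topology Set
open Pool.Agent.W401.Cheb (pr M mem_pr tendsto_pc)

variable {θ : ℝ}

/-- `x^(-1-iθ)` -/
noncomputable def pw (θ x : ℝ) : ℂ := (x : ℂ) ^ (-(1 + θ * I))

theorem pw_norm (θ : ℝ) {x : ℝ} (hx : 0 < x) : ‖pw θ x‖ = x⁻¹ := by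
  unfold pw
  rw [Complex.norm_cpow_eq_rpow_re_of_pos hx]
  have : (-(1 + θ * I : ℂ)).re = -1 := by simp
  rw [this, Real.rpow_neg_one]

/-- a bound for the derivative -/
noncomputable def ct (θ : ℝ) : ℝ := ‖(1 : ℂ) + θ * I‖

theorem ct_nonneg (θ : ℝ) : 0 ≤ ct θ := norm_nonneg _

theorem pw_deriv (θ : ℝ) {x : ℝ} (hx : 0 < x) :
    HasDerivAt (pw θ) (-(1 + θ * I) * (x : ℂ) ^ (-(1 + θ * I) - 1)) x := by
  refine hasDerivAt_ofReal_cpow_const hx.ne' ?_
  intro h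
  have := congrArg Complex.re h
  simp at this

theorem pw_deriv_norm (θ : ℝ) {x : ℝ} (hx : 0 < x) :
    ‖-(1 + θ * I) * (x : ℂ) ^ (-(1 + θ * I) - 1)‖ = ct θ / x ^ 2 := by
  rw [norm_mul, norm_neg, Complex.norm_cpow_eq_rpow_re_of_pos hx]
  have : (-(1 + θ * I : ℂ) - 1).re = -2 := by simp; norm_num
  rw [this, show (-2 : ℝ) = -((2 : ℕ) : ℝ) by norm_num, Real.rpow_neg hx.le, Real.rpow_natCast]
  rfl

theorem pw_diff (θ : ℝ) {a x : ℝ} (ha : 0 < a) (hx : a ≤ x) :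
    ‖pw θ x - pw θ a‖ ≤ ct θ / a ^ 2 * (x - a) := by
  have h := Convex.norm_image_sub_le_of_norm_hasDerivWithin_le (f := pw θ)
    (f' := fun x => -(1 + θ * I) * (x : ℂ) ^ (-(1 + θ * I) - 1)) (C := ct θ / a ^ 2) (s := Ici a)
    (fun y hy => (pw_deriv θ (ha.trans_le hy)).hasDerivWithinAt) (fun y hy => by
      have hy' : a ≤ y := hy
      rw [pw_deriv_norm θ (ha.trans_le hy)]
      have := ct_nonneg θ
      gcongr) (convex_Ici a) (self_mem_Ici) hx
  rwa [Real.norm_of_nonneg (by linarith)] at h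

/-- the primitive -/
noncomputable def pG (θ x : ℝ) : ℂ := (x : ℂ) ^ (-(1 + θ * I) + 1) / (-(1 + θ * I) + 1)

theorem pG_deriv (hθ : θ ≠ 0) {x : ℝ} (hx : 0 < x) : HasDerivAt (pG θ) (pw θ x) x := by
  refine hasDerivAt_ofReal_cpow_const' hx.ne' ?_
  intro h
  have := congrArg Complex.im h
  simp at this
  exact hθ this

theorem pG_norm (θ : ℝ) {x : ℝ} (hx : 0 < x) : ‖pG θ x‖ = |θ|⁻¹ := by
  unfold pG
  rw [norm_div, Complex.norm_cpow_eq_rpow_re_of_pos hx]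
  have h1 : (-(1 + θ * I : ℂ) + 1).re = 0 := by simp
  have h2 : (-(1 + θ * I : ℂ) + 1) = -(θ * I) := by ring
  rw [h1, Real.rpow_zero, h2, norm_neg, norm_mul, Complex.norm_real, Complex.norm_I, mul_one, one_div,
    Real.norm_eq_abs]

theorem pG_step (hθ : θ ≠ 0) {a : ℝ} (ha : 0 < a) :
    ‖pG θ (a + 1) - pG θ a - pw θ a‖ ≤ ct θ / a ^ 2 := by
  have h := Convex.norm_image_sub_le_of_norm_hasDerivWithin_le (f := fun x : ℝ => pG θ x - x * pw θ a)
    (f' := fun x => pw θ x - 1 * pw θ a) (C := ct θ / a ^ 2) (s := Icc a (a + 1))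
    (fun y hy => ((pG_deriv hθ (ha.trans_le hy.1)).sub
      ((hasDerivAt_id y).ofReal_comp.mul_const _)).hasDerivWithinAt) (fun y hy => by
      rw [one_mul]
      refine (pw_diff θ ha hy.1).trans ?_
      have h1 := hy.2
      have : 0 ≤ ct θ / a ^ 2 := div_nonneg (ct_nonneg θ) (by positivity)
      nlinarith) (convex_Icc a (a + 1)) (left_mem_Icc.2 (by linarith)) (right_mem_Icc.2 (by linarith))
  have e : pG θ (a + 1) - ((a + 1 : ℝ) : ℂ) * pw θ a - (pG θ a - (a : ℂ) * pw θ a) =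
      pG θ (a + 1) - pG θ a - pw θ a := by
    push_cast
    ring
  rw [e, add_sub_cancel_left, norm_one, mul_one] at h
  exact h

theorem inv_sq_summable : Summable fun n : ℕ => (1 : ℝ) / ((n : ℝ) + 1) ^ 2 := by
  have := (summable_nat_add_iff 1).2 (Real.summable_one_div_nat_pow.2 (by norm_num : 1 < 2))
  refine this.congr fun n => ?_
  push_cast
  rfl

/-- the partial sums of `n^(-1-iθ)` are bounded -/
theorem pw_partial (hθ : θ ≠ 0) : ∃ K : ℝ, ∀ N : ℕ, ‖∑ n ∈ Finset.range N, pw θ ((n : ℝ) + 2)‖ ≤ K := by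
  have hs := inv_sq_summable.mul_left (ct θ)
  refine ⟨2 * |θ|⁻¹ + ∑' n : ℕ, ct θ * (1 / ((n : ℝ) + 1) ^ 2), fun N => ?_⟩
  have h1 : ∀ n ∈ Finset.range N, ‖pG θ ((n : ℝ) + 2 + 1) - pG θ ((n : ℝ) + 2) - pw θ ((n : ℝ) + 2)‖ ≤
      ct θ * (1 / ((n : ℝ) + 1) ^ 2) := by
    intro n _
    refine (pG_step hθ (a := (n : ℝ) + 2) (by positivity)).trans ?_
    rw [mul_one_div]
    have := ct_nonneg θ
    gcongr
    norm_num
  have h2 : ‖∑ n ∈ Finset.range N, (pG θ ((n : ℝ) + 2 + 1) - pG θ ((n : ℝ) + 2) - pw θ ((n : ℝ) + 2))‖ ≤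
      ∑' n : ℕ, ct θ * (1 / ((n : ℝ) + 1) ^ 2) := by
    refine (norm_sum_le _ _).trans ((Finset.sum_le_sum h1).trans ?_)
    exact hs.sum_le_tsum _ fun n _ => mul_nonneg (ct_nonneg θ) (by positivity)
  have h3 : ∑ n ∈ Finset.range N, (pG θ ((n : ℝ) + 2 + 1) - pG θ ((n : ℝ) + 2)) =
      pG θ ((N : ℝ) + 2) - pG θ 2 := by
    have := Finset.sum_range_sub (fun n : ℕ => pG θ ((n : ℝ) + 2)) N
    rw [Nat.cast_zero, zero_add] at this
    rw [← this]
    refine Finset.sum_congr rfl fun n _ => ?_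
    push_cast
    congr 2
    ring
  rw [Finset.sum_sub_distrib, h3] at h2
  have h4 := pG_norm θ (x := (N : ℝ) + 2) (by positivity)
  have h5 := pG_norm θ (x := 2) (by norm_num)
  have h6 : ‖∑ n ∈ Finset.range N, pw θ ((n : ℝ) + 2)‖ ≤
      ‖pG θ ((N : ℝ) + 2) - pG θ 2 - ∑ n ∈ Finset.range N, pw θ ((n : ℝ) + 2)‖ +
      ‖pG θ ((N : ℝ) + 2) - pG θ 2‖ := by
    have := norm_sub_le (pG θ ((N : ℝ) + 2) - pG θ 2)
      (pG θ ((N : ℝ) + 2) - pG θ 2 - ∑ n ∈ Finset.range N, pw θ ((n : ℝ) + 2))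
    rw [sub_sub_cancel] at this
    linarith
  have h7 := norm_sub_le (pG θ ((N : ℝ) + 2)) (pG θ 2)
  linarith

/-- the partial sums of `n^(-1-iθ) / log n` are bounded -/
theorem pw_log_partial (hθ : θ ≠ 0) : ∃ K : ℝ, ∀ N : ℕ,
    ‖∑ n ∈ Finset.range N, (Real.log ((n : ℝ) + 2))⁻¹ • pw θ ((n : ℝ) + 2)‖ ≤ K := by
  obtain ⟨K, hK⟩ := pw_partial hθ
  have hanti : Antitone fun n : ℕ => (Real.log ((n : ℝ) + 2))⁻¹ := by
    intro m n hmn
    have h1 : (m : ℝ) ≤ n := by exact_mod_cast hmn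
    have h2 : 0 < Real.log ((m : ℝ) + 2) := Real.log_pos (by
      have : (0:ℝ) ≤ m := Nat.cast_nonneg m
      linarith)
    refine inv_anti₀ h2 (Real.log_le_log (by positivity) (by linarith))
  have hlim : Tendsto (fun n : ℕ => (Real.log ((n : ℝ) + 2))⁻¹) atTop (𝓝 0) := by
    refine tendsto_inv_atTop_zero.comp (Real.tendsto_log_atTop.comp ?_)
    exact tendsto_atTop_add_const_right _ _ tendsto_natCast_atTop_atTop
  have hc := hanti.cauchySeq_series_mul_of_tendsto_zero_of_bounded hlim hK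
  obtain ⟨R, hR⟩ := hc.norm_bddAbove
  exact ⟨R, fun N => hR ⟨N, rfl⟩⟩

/-! ### Abel summation -/

theorem abelC (a h : ℕ → ℂ) (N : ℕ) : ∑ n ∈ Finset.range (N + 1), a n * h n =
    (∑ n ∈ Finset.range (N + 1), a n) * h (N + 1) +
      ∑ n ∈ Finset.range (N + 1), (∑ i ∈ Finset.range (n + 1), a i) * (h n - h (n + 1)) := by
  induction N with
  | zero => simp; ring
  | succ N ih =>
    rw [Finset.sum_range_succ, ih, Finset.sum_range_succ (fun n => _ * _) (N + 1),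
      Finset.sum_range_succ a (N + 1)]
    ring

/-- `1/(n log n)` -/
theorem sum_inv_log (N : ℕ) (hN : 2 ≤ N) : ∑ n ∈ Finset.Icc 3 N, ((n : ℝ) * Real.log n)⁻¹ ≤
    Real.log (Real.log N) - Real.log (Real.log 2) := by
  induction N, hN using Nat.le_induction with
  | base => simp
  | succ N hN ih =>
    rw [Finset.sum_Icc_succ_top (by omega)]
    have h1 : (2 : ℝ) ≤ N := by exact_mod_cast hN
    have hl1 : 0 < Real.log N := Real.log_pos (by linarith)
    have hl2 : 0 < Real.log ((N + 1 : ℕ) : ℝ) := Real.log_pos (by push_cast; linarith)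
    have h2 : 1 - (Real.log N / Real.log ((N + 1 : ℕ) : ℝ)) ≤
        -Real.log (Real.log N / Real.log ((N + 1 : ℕ) : ℝ)) := by
      have := Real.log_le_sub_one_of_pos (div_pos hl1 hl2)
      linarith
    rw [Real.log_div hl1.ne' hl2.ne'] at h2
    have h3 : ((N + 1 : ℕ) : ℝ)⁻¹ ≤ Real.log ((N + 1 : ℕ) : ℝ) - Real.log N := by
      have h4 := Real.log_le_sub_one_of_pos (show 0 < (N : ℝ) / ((N + 1 : ℕ) : ℝ) by positivity)
      rw [Real.log_div (by linarith) (by positivity)] at h4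
      have h5 : (N : ℝ) / ((N + 1 : ℕ) : ℝ) - 1 = -((N + 1 : ℕ) : ℝ)⁻¹ := by
        push_cast
        field_simp
        ring
      linarith
    have h6 : (((N + 1 : ℕ) : ℝ) * Real.log ((N + 1 : ℕ) : ℝ))⁻¹ ≤
        1 - Real.log N / Real.log ((N + 1 : ℕ) : ℝ) := by
      rw [mul_inv, one_sub_div hl2.ne', div_eq_mul_inv]
      exact mul_le_mul_of_nonneg_right h3 (by positivity)
    linarith

end Pool.Agent.D0H40.AR
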