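import Pool.Agent.D0H40.AR.Law

/-! Sectors without zeros and poles. -/

set_option autoImplicit false

namespace Pool.Agent.D0H40.AR

open Complex MeasureTheory Filter Topology Set
open Pool.Agent.D0H40.CX
open Pool.Agent.D0H40.KX
open Pool.Agent.W189.ML (ser)
open Pool.Agent.W334.BSD (exists_log)
open scoped ComplexConjugate

variable {σ : ℝ} {lam c : ℕ → ℝ} {G E : ℂ → ℂ} {W : ℝ → ℝ → ℝ → ℂ}

theorem order_zero {f : ℂ → ℂ} {z : ℂ} (hf : AnalyticAt ℂ f z) (h0 : f z ≠ 0) :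
    meromorphicOrderAt f z = 0 := by
  rw [hf.meromorphicOrderAt_eq, hf.analyticOrderAt_eq_zero.2 h0]
  rfl

/-- values of two functions analytic at a point -/
theorem eq_of_punctured {f g : ℂ → ℂ} {z : ℂ} (hf : AnalyticAt ℂ f z) (hg : AnalyticAt ℂ g z)
    (h : ∀ᶠ w in 𝓝[≠] z, f w = g w) : f z = g z := by
  have h1 : Tendsto f (𝓝[≠] z) (𝓝 (f z)) := hf.continuousAt.tendsto.mono_left nhdsWithin_le_nhds
  have h2 : Tendsto g (𝓝[≠] z) (𝓝 (g z)) := hg.continuousAt.tendsto.mono_left nhdsWithin_le_nhds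
  exact tendsto_nhds_unique h1 (h2.congr' (h.mono fun w hw => hw.symm))

/-- **Continuations without zeros and the orders of the meromorphic continuation.** -/
theorem cont_iff (S : ESys lam c G E σ) (hσ0 : 0 ≤ σ) {F : ℂ → ℂ} (hF : MCont E σ F) {U : Set ℂ}
    (hU : Dom U) : (∃ Φ : ℂ → ℂ, Cont E σ U Φ) ↔ ∀ w ∈ U, meromorphicOrderAt F w = 0 := by
  constructor
  · rintro ⟨Φ, h1, h2, h3⟩ w hw
    have hgm : MeromorphicOn (fun w => F w - Φ w) U := by
      intro z hz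
      refine (hF.mero z (hU.pos z hz)).sub ?_
      exact (h1.analyticAt (hU.op.mem_nhds hz)).meromorphicAt
    obtain ⟨r, hr1, hr2, hr3⟩ := hU.far hw σ
    have htop : meromorphicOrderAt (fun w => F w - Φ w) ((r : ℂ) * w) = ⊤ := by
      rw [meromorphicOrderAt_eq_top_iff]
      refine eventually_nhdsWithin_of_eventually_nhds ?_
      filter_upwards [(hU.op.inter (re_open σ)).mem_nhds ⟨hr2, hr3⟩] with z hz
      rw [hF.eq z hz.2, h3 z hz.1 hz.2, sub_self]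
    have htop2 : meromorphicOrderAt (fun w => F w - Φ w) w = ⊤ := by
      by_contra hc
      exact hgm.meromorphicOrderAt_ne_top_of_isPreconnected hU.cv.isPreconnected hw hr2 hc htop
    rw [meromorphicOrderAt_eq_top_iff] at htop2
    have h4 : F =ᶠ[𝓝[≠] w] Φ := htop2.mono fun z hz => sub_eq_zero.1 hz
    rw [meromorphicOrderAt_congr h4]
    exact order_zero (h1.analyticAt (hU.op.mem_nhds hw)) (h2 w hw)
  · intro h
    have hmero : MeromorphicOn F U := fun w hw => hF.mero w (hU.pos w hw)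
    set Φ : ℂ → ℂ := toMeromorphicNFOn F U with hΦ
    have hnf : MeromorphicNFOn Φ U := meromorphicNFOn_toMeromorphicNFOn F U
    have hord : ∀ w ∈ U, meromorphicOrderAt Φ w = 0 := by
      intro w hw
      rw [hΦ, meromorphicOrderAt_toMeromorphicNFOn hmero hw]
      exact h w hw
    have han : ∀ w ∈ U, AnalyticAt ℂ Φ w := fun w hw =>
      (hnf hw).meromorphicOrderAt_nonneg_iff_analyticAt.1 (by rw [hord w hw])
    refine ⟨Φ, fun w hw => (han w hw).differentiableAt.differentiableWithinAt, fun w hw =>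
      (hnf hw).meromorphicOrderAt_eq_zero_iff.1 (hord w hw), fun w hw hwσ => ?_⟩
    have hE : AnalyticAt ℂ E w := (S.E_diff hσ0).analyticAt ((re_open σ).mem_nhds hwσ)
    refine eq_of_punctured (han w hw) hE ?_
    have h1 : F =ᶠ[𝓝[≠] w] Φ := (hmero.toMeromorphicNFOn_eq_self_on_nhdsNE hw).symm
    have h2 : ∀ᶠ z in 𝓝[≠] w, F z = E z := by
      refine eventually_nhdsWithin_of_eventually_nhds ?_
      filter_upwards [(re_open σ).mem_nhds hwσ] with z hz
      exact hF.eq z hz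
    filter_upwards [h1, h2] with z h3 h4
    rw [← h3, h4]

/-- **Sectors without zeros and poles give laws.** -/
theorem mero_sector (D : Data W lam c G E σ) (hσ0 : 0 ≤ σ) {F : ℂ → ℂ} (hF : MCont E σ F) {r : ℤ}
    (hr : meromorphicOrderAt F 0 = r) {θ φ : ℝ} (h0 : 0 < φ) (hφ : |θ| + φ ≤ Real.pi / 2)
    (h : ∀ w ∈ Os θ φ, meromorphicOrderAt F w = 0) {k : ℝ} (hk : 1 < k) (τ : ℝ)
    (hin : |bt k τ - θ| + fc k < φ) : ∃ C : ℝ, XLaw (W k τ) k r 0 C := by
  have hpi := Real.pi_pos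
  have hdom := Os_dom' h0 hφ
  obtain ⟨Φ, h1, h2, h3⟩ := (cont_iff D.S hσ0 hF hdom).2 h
  have hθ := abs_le.1 (show |θ| ≤ Real.pi / 2 by linarith)
  have hne : (Os θ φ).Nonempty := by
    refine ⟨exp ((θ : ℂ) * I), exp_ne_zero _, ?_⟩
    rw [Complex.arg_exp_mul_I, (toIocMod_eq_self Real.two_pi_pos).2 ⟨by linarith [hθ.1], by linarith [hθ.2]⟩,
      sub_self, abs_zero]
    exact h0
  obtain ⟨ℓ, hℓ1, hℓ2⟩ := exists_log hdom.op hdom.cv hne h1 h2
  have hℓ3 : ∀ w ∈ Os θ φ, σ < w.re → exp (ℓ w) = E w := fun w hw hwσ => by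
    rw [hℓ2 w hw, h3 w hw hwσ]
  obtain ⟨ρ, hρ, h4⟩ := hF.ident D.S h0 hφ hℓ1 hℓ3
  obtain ⟨ρ', C, hρ', h5⟩ := vertex_bound h0 hφ hF.vert hr hℓ1 hρ h4
  exact D.ofO hφ ((OrdO_iff _ _ _ _).2 ⟨hℓ1, hℓ3, vertex_VB hφ hℓ1 hρ' h5⟩) hk τ hin

/-- **Growth and the zeros and poles in the sector.** -/
theorem growth_sector (D : Data W lam c G E σ) (hσ0 : 0 ≤ σ) {F : ℂ → ℂ} (hF : MCont E σ F)
    {k : ℝ} (hk : 1 < k) (τ : ℝ) : (∀ ε : ℝ, 0 < ε → ∀ᶠ X : ℝ in atTop, ‖W k τ X‖ ≤ X ^ ε) ↔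
      ∀ w ∈ Os (bt k τ) (fc k), meromorphicOrderAt F w = 0 := by
  rw [D.growth0 hk τ]
  exact cont_iff D.S hσ0 hF (Os_dom' (fc_pos hk) (bt_abs_lt hk τ).le)

/-- **A common sector** for finitely many meromorphic continuations. -/
theorem common_sector {ι : Type} [Finite ι] (hσ0 : 0 ≤ σ) (F : ι → ℂ → ℂ)
    (hord : ∀ i, ∀ w : ℂ, 0 < w.re → meromorphicOrderAt (F i) w ≠ ⊤)
    (hmero : ∀ i, ∀ w : ℂ, 0 < w.re → MeromorphicAt (F i) w)
    (hnear : ∀ i, ∃ ρ : ℝ, 0 < ρ ∧ ∀ w : ℂ, w ≠ 0 → ‖w‖ < ρ → AnalyticAt ℂ (F i) w ∧ F i w ≠ 0)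
    (hfar : ∀ i, ∀ w : ℂ, σ < w.re → meromorphicOrderAt (F i) w = 0) :
    ∃ θ φ : ℝ, 0 < φ ∧ |θ| + φ ≤ Real.pi / 2 ∧ ∀ i, ∀ w ∈ Os θ φ, meromorphicOrderAt (F i) w = 0 := by
  have hpi := Real.pi_pos
  choose ρ' hρ' hnear' using hnear
  obtain ⟨ρ, hρ, hρle⟩ : ∃ ρ : ℝ, 0 < ρ ∧ ∀ i, ρ ≤ ρ' i := by
    rcases isEmpty_or_nonempty ι with he | he
    · exact ⟨1, one_pos, fun i => (he.false i).elim⟩
    · have := Fintype.ofFinite ι
      refine ⟨Finset.univ.inf' Finset.univ_nonempty ρ', ?_, fun i => Finset.inf'_le _ (Finset.mem_univ i)⟩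
      rw [Finset.lt_inf'_iff]
      exact fun i _ => hρ' i
  have hn : ∀ i, ∀ w : ℂ, w ≠ 0 → ‖w‖ < ρ → AnalyticAt ℂ (F i) w ∧ F i w ≠ 0 := fun i w h1 h2 =>
    hnear' i w h1 (h2.trans_le (hρle i))
  -- the compact set
  set T : Set ℂ := {w : ℂ | ρ / 2 ≤ w.re ∧ w.re ≤ σ ∧ 0 ≤ w.im ∧ w.im ≤ 1} with hT
  have hTc : IsCompact T := by
    have h1 : T = Icc (ρ / 2) σ ×ℂ Icc 0 1 := by
      ext w
      simp only [hT, mem_ofPred_eq, Complex.mem_reProdIm, mem_Icc]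
      tauto
    rw [h1]
    exact isCompact_Icc.reProdIm isCompact_Icc
  have hbad : ∀ i, {w | w ∈ T ∧ ¬ (AnalyticAt ℂ (F i) w ∧ F i w ≠ 0)}.Finite := fun i =>
    finite_bad hTc (Q := fun w => AnalyticAt ℂ (F i) w ∧ F i w ≠ 0) (fun w hw => by
      have hw0 : 0 < w.re := by
        have := hw.1
        linarith
      exact (hmero i w hw0).eventually_analyticAt.and
        ((meromorphicOrderAt_ne_top_iff_eventually_ne_zero (hmero i w hw0)).1 (hord i w hw0)))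
  set A : Set ℝ := ⋃ i, arg '' {w | w ∈ T ∧ ¬ (AnalyticAt ℂ (F i) w ∧ F i w ≠ 0)} with hA
  have hAf : A.Finite := Set.finite_iUnion fun i => (hbad i).image arg
  -- the angle
  set ψ : ℝ := Real.arctan (1 / (σ + 1)) with hψ
  have hψ0 : 0 < ψ := Real.arctan_pos.2 (by positivity)
  have hψ1 : ψ < Real.pi / 2 := Real.arctan_lt_pi_div_two _
  have hopen : IsOpen (Ioo 0 ψ \ A) := isOpen_Ioo.sdiff hAf.isClosed
  have hne : (Ioo 0 ψ \ A).Nonempty := by
    have h1 : (Ioo 0 ψ).Infinite := Ioo_infinite hψ0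
    exact (h1.sdiff hAf).nonempty
  obtain ⟨θ, hθ⟩ := hne
  obtain ⟨φ, hφ, hball⟩ := Metric.isOpen_iff.1 hopen θ hθ
  have hang : ∀ t : ℝ, |t - θ| < φ → 0 < t ∧ t < ψ ∧ t ∉ A := by
    intro t ht
    have := hball (show t ∈ Metric.ball θ φ by rwa [Metric.mem_ball, Real.dist_eq])
    exact ⟨this.1.1, this.1.2, this.2⟩
  have hθ0 := (hang θ (by rw [sub_self, abs_zero]; exact hφ)).1
  have hθφ : θ + φ ≤ ψ := by
    by_contra hc
    push Not at hc
    have h1 : |max ψ θ - θ| < φ := by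
      rw [abs_of_nonneg (by
        have := le_max_right ψ θ
        linarith)]
      have : max ψ θ < θ + φ := max_lt hc (by linarith)
      linarith
    have h2 := (hang _ h1).2.1
    have := le_max_left ψ θ
    linarith
  have hφ2 : |θ| + φ ≤ Real.pi / 2 := by
    rw [abs_of_pos hθ0]
    linarith
  have hdom := Os_dom' hφ hφ2
  refine ⟨θ, φ, hφ, hφ2, fun i w hw => ?_⟩
  rcases lt_or_ge σ w.re with hσ | hre
  · exact hfar i w hσ
  suffices AnalyticAt ℂ (F i) w ∧ F i w ≠ 0 from order_zero this.1 this.2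
  have hre0 := hdom.pos w hw
  obtain ⟨h1, h2, h3⟩ := hang (arg w) hw.2
  have h4 := Real.tan_lt_tan_of_nonneg_of_lt_pi_div_two h1.le hψ1 h2
  rw [Complex.tan_arg, hψ, Real.tan_arctan, div_lt_div_iff₀ hre0 (by positivity), one_mul] at h4
  have h5 : 0 ≤ w.im := by
    rw [← Complex.arg_nonneg_iff]
    exact h1.le
  have h6 : w.im ≤ w.im * (σ + 1) := by nlinarith
  rcases lt_or_ge w.re (ρ / 2) with h7 | h7
  · refine hn i w hw.1 ?_
    have h8 := Complex.norm_le_abs_re_add_abs_im w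
    rw [abs_of_pos hre0, abs_of_nonneg h5] at h8
    linarith
  · by_contra hc
    exact h3 (mem_iUnion.2 ⟨i, w, ⟨⟨h7, hre, h5, by
      have : w.im * (σ + 1) ≤ σ := by linarith
      have h9 : σ ≤ σ + 1 := by linarith
      have h10 : w.im * (σ + 1) < 1 * (σ + 1) := by linarith
      exact (lt_of_mul_lt_mul_right h10 (by positivity)).le⟩, hc⟩, rfl⟩)

/-- the orders to the right of `σ` -/
theorem MCont_far (S : ESys lam c G E σ) (hσ0 : 0 ≤ σ) {F : ℂ → ℂ} (hF : MCont E σ F) {w : ℂ}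
    (hw : σ < w.re) : meromorphicOrderAt F w = 0 := by
  have hE : AnalyticAt ℂ E w := (S.E_diff hσ0).analyticAt ((re_open σ).mem_nhds hw)
  have h1 : F =ᶠ[𝓝[≠] w] E := by
    refine eventually_nhdsWithin_of_eventually_nhds ?_
    filter_upwards [(re_open σ).mem_nhds hw] with z hz
    exact hF.eq z hz
  rw [meromorphicOrderAt_congr h1]
  exact order_zero hE (S.E_ne hw)

/-! ### The laws for the families of parameters -/

variable {P : ℕ → Prop} {d : ℕ} {α : ℕ → Fin d → ℂ}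

theorem growth_close {V V' : ℝ → ℂ} {C : ℝ}
    (h : ∀ᶠ X : ℝ in atTop, ‖V X + V' X‖ ≤ C * Real.log (Real.log X) + C)
    (hV : ∀ ε : ℝ, 0 < ε → ∀ᶠ X : ℝ in atTop, ‖V X‖ ≤ X ^ ε) :
    ∀ ε : ℝ, 0 < ε → ∀ᶠ X : ℝ in atTop, ‖V' X‖ ≤ X ^ ε := by
  intro ε hε
  have h1 := (isLittleO_log_rpow_atTop (half_pos hε)).bound (show (0:ℝ) < 1 / (2 * (|C| + 1)) by positivity)
  filter_upwards [h, hV (ε / 2) (half_pos hε), h1, eventually_ge_atTop (Real.exp 1),
    (tendsto_rpow_atTop (half_pos hε)).eventually (eventually_ge_atTop (2 + 2 * |C|))] with X h2 h3 h4 h5 h6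
  have hX0 : 0 < X := (Real.exp_pos 1).trans_le h5
  have hL1 : 1 ≤ Real.log X := by
    have := Real.log_le_log (Real.exp_pos 1) h5
    rwa [Real.log_exp] at this
  have h7 : Real.log (Real.log X) ≤ Real.log X := by
    have := Real.log_le_sub_one_of_pos (show 0 < Real.log X by linarith)
    linarith
  rw [Real.norm_of_nonneg (by linarith), Real.norm_of_nonneg (by positivity)] at h4
  have h8 : X ^ ε = X ^ (ε / 2) * X ^ (ε / 2) := by
    rw [← Real.rpow_add hX0]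
    ring_nf
  have hC := abs_nonneg C
  have hC2 := le_abs_self C
  have hll : 0 ≤ Real.log (Real.log X) := Real.log_nonneg hL1
  have h9 : C * Real.log (Real.log X) ≤ X ^ (ε / 2) / 2 := by
    have h10 : (|C| + 1) * Real.log X ≤ X ^ (ε / 2) / 2 := by
      have h11 := mul_le_mul_of_nonneg_left h4 (show 0 ≤ |C| + 1 by positivity)
      have h12 : (|C| + 1) * (1 / (2 * (|C| + 1)) * X ^ (ε / 2)) = X ^ (ε / 2) / 2 := by
        field_simp
      linarith
    have h13 : C * Real.log (Real.log X) ≤ (|C| + 1) * Real.log X := by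
      calc C * Real.log (Real.log X) ≤ |C| * Real.log (Real.log X) :=
            mul_le_mul_of_nonneg_right hC2 hll
        _ ≤ (|C| + 1) * Real.log X := by
            refine mul_le_mul (by linarith) h7 hll (by positivity)
    linarith
  have h14 : ‖V' X‖ ≤ ‖V X + V' X‖ + ‖V X‖ := by
    have := norm_sub_le (V X + V' X) (V X)
    rwa [add_sub_cancel_left] at this
  rw [h8]
  nlinarith

/-! ### The continuation of the Euler product -/

theorem half_shift' (F : ℂ → ℂ) (w : ℂ) :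
    meromorphicOrderAt (fun w => F (1 / 2 + w)) w = meromorphicOrderAt F (1 / 2 + w) := by
  have h1 : AnalyticAt ℂ (fun w : ℂ => 1 / 2 + w) w := by fun_prop
  have h2 : deriv (fun w : ℂ => 1 / 2 + w) w ≠ 0 := by
    rw [deriv_const_add, deriv_id'']
    exact one_ne_zero
  exact meromorphicOrderAt_comp_of_deriv_ne_zero (f := F) h1 h2

theorem Ph_order' {F : ℂ → ℂ} (h : ∀ s : ℂ, 1 / 2 < s.re → MeromorphicAt F s) {w : ℂ} (hw : 0 < w.re) :
    meromorphicOrderAt (Ph F) w =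
      meromorphicOrderAt F (1 / 2 + w) + meromorphicOrderAt F (conj (1 / 2 + w)) := by
  have hr : ((1 : ℂ) / 2).re = 1 / 2 := by norm_num
  have h3 : MeromorphicAt (fun w => F (1 / 2 + w)) w := mero_half (h _ (by
    rw [Complex.add_re, hr]
    linarith))
  have h4 : MeromorphicAt (fun w => F (1 / 2 + w)) (conj w) := mero_half (h _ (by
    rw [Complex.add_re, hr, Complex.conj_re]
    linarith))
  rw [Ph_eq, meromorphicOrderAt_mul h3 (mero_conj h4), order_conj h4, half_shift', half_shift', conj_half]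

/-- the laws in a sector without zeros and poles -/
theorem Par.law_sector (H : Par P α) {F : ℂ → ℂ} (h1 : ∀ s : ℂ, 1 / 2 < s.re → MeromorphicAt F s)
    (h2 : MeromorphicAt F (1 / 2)) (h3 : ∀ s : ℂ, 1 < s.re → HasProd (loc P α s) (F s)) {m : ℤ}
    (hm : meromorphicOrderAt F (1 / 2) = m) {θ φ : ℝ} (h0 : 0 < φ) (hφ : |θ| + φ ≤ Real.pi / 2)
    (h : ∀ w ∈ Os θ φ, meromorphicOrderAt (Ph F) w = 0) {k : ℝ} (hk : 1 < k) (τ : ℝ)
    (hin : |bt k τ - θ| + fc k < φ) : SL (Lw P α k τ) k m := by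
  have hM := H.mcont h1 h2 h3
  have hr : meromorphicOrderAt (Ph F) 0 = ((2 * m : ℤ) : WithTop ℤ) := by
    rw [Ph_order h2, hm, two_mul, WithTop.coe_add]
  have h4 := mero_sector H.ns.data (by norm_num) hM hr h0 hφ h hk τ hin
  refine (SL_two (W := Wn (qA P d) (tA P α) k τ) fun X => H.Wn_eq k τ X).1 ?_
  have e : ((2 * m : ℤ) : ℂ) = 2 * (m : ℂ) := by push_cast; ring
  rwa [e] at h4

/-- growth of the sums of logarithms -/
theorem Par.growth (H : Par P α) {F : ℂ → ℂ} (h1 : ∀ s : ℂ, 1 / 2 < s.re → MeromorphicAt F s)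
    (h2 : MeromorphicAt F (1 / 2)) (h3 : ∀ s : ℂ, 1 < s.re → HasProd (loc P α s) (F s))
    {k : ℝ} (hk : 1 < k) (τ : ℝ) :
    (∀ ε : ℝ, 0 < ε → ∀ᶠ X : ℝ in atTop, ‖Lw P α k τ X‖ ≤ X ^ ε) ↔
      ∀ w ∈ Os (bt k τ) (fc k), meromorphicOrderAt (Ph F) w = 0 := by
  rw [← growth_sector H.ns.data (by norm_num) (H.mcont h1 h2 h3) hk τ]
  have e : ∀ X, ‖Wn (qA P d) (tA P α) k τ X‖ = 2 * ‖Lw P α k τ X‖ := by
    intro X
    rw [H.Wn_eq k τ X, norm_mul, Complex.norm_ofNat]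
    rfl
  constructor
  · intro h ε hε
    filter_upwards [h (ε / 2) (half_pos hε), eventually_gt_atTop 0,
      (tendsto_rpow_atTop (half_pos hε)).eventually (eventually_ge_atTop 2)] with X h4 h5 h6
    have h8 : X ^ ε = X ^ (ε / 2) * X ^ (ε / 2) := by
      rw [← Real.rpow_add h5]
      ring_nf
    rw [e, h8]
    nlinarith [norm_nonneg (Lw P α k τ X)]
  · intro h ε hε
    filter_upwards [h ε hε] with X h4
    rw [e] at h4
    linarith [norm_nonneg (Lw P α k τ X)]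

open Pool.Agent.W401.Cheb (M) in
/-- growth of the character sums -/
theorem Par.growth_bias (H : Par P α) {ν : ℝ} (hν : Tendsto (M (bG P α)) atTop (𝓝 ν)) {k : ℝ}
    (hk : 1 < k) (τ : ℝ) : (∀ ε : ℝ, 0 < ε → ∀ᶠ X : ℝ in atTop, ‖Sw P α k τ X‖ ≤ X ^ ε) ↔
      (∀ ε : ℝ, 0 < ε → ∀ᶠ X : ℝ in atTop, ‖Lw P α k τ X‖ ≤ X ^ ε) := by
  obtain ⟨C, hC⟩ := H.compare hν hk τ one_pos
  have hclose : ∀ᶠ X : ℝ in atTop, ‖Lw P α k τ X + Sw P α k τ X‖ ≤
      (1 + ‖((1 - 1 / k) * (ν / 2) : ℂ)‖ + |C|) * Real.log (Real.log X) +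
        (1 + ‖((1 - 1 / k) * (ν / 2) : ℂ)‖ + |C|) := by
    filter_upwards [hC, eventually_ge_atTop (Real.exp 1)] with X h1 h2
    have hL1 : 1 ≤ Real.log X := by
      have := Real.log_le_log (Real.exp_pos 1) h2
      rwa [Real.log_exp] at this
    have hll : 0 ≤ Real.log (Real.log X) := Real.log_nonneg hL1
    have h3 := norm_sub_le (Lw P α k τ X + Sw P α k τ X +
      (1 - 1 / k) * (ν / 2) * (Real.log (Real.log X) : ℝ))
      ((1 - 1 / k) * (ν / 2) * (Real.log (Real.log X) : ℝ))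
    rw [add_sub_cancel_right, norm_mul ((1 - 1 / k) * (ν / 2) : ℂ), Complex.norm_real,
      Real.norm_of_nonneg hll] at h3
    have h4 := le_abs_self C
    have h5 : 0 ≤ |C| * Real.log (Real.log X) := by positivity
    have h6 : 0 ≤ ‖((1 - 1 / k) * (ν / 2) : ℂ)‖ := norm_nonneg _
    nlinarith
  constructor
  · intro h
    refine growth_close (V := Sw P α k τ) (C := 1 + ‖((1 - 1 / k) * (ν / 2) : ℂ)‖ + |C|) ?_ h
    filter_upwards [hclose] with X h1
    rwa [add_comm (Sw P α k τ X)]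
  · intro h
    exact growth_close hclose h

/-- **A common choice** of the exponent and the direction. -/
theorem common_choice {ι : Type} [Finite ι] (d : ι → ℕ) (α : (i : ι) → ℕ → Fin (d i) → ℂ)
    (H : ∀ i, Par P (α i)) (F : ι → ℂ → ℂ) (h1 : ∀ i, ∀ s : ℂ, 1 / 2 < s.re → MeromorphicAt (F i) s)
    (h2 : ∀ i, MeromorphicAt (F i) (1 / 2))
    (h3 : ∀ i, ∀ s : ℂ, 1 < s.re → HasProd (loc P (α i) s) (F i s)) (m : ι → ℤ)
    (hm : ∀ i, meromorphicOrderAt (F i) (1 / 2) = m i) :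
    ∃ k τ : ℝ, 1 < k ∧ ∀ i, SL (Lw P (α i) k τ) k (m i) := by
  have hM : ∀ i, MCont (En (qA P (d i)) (tA P (α i))) (1 / 2) (Ph (F i)) := fun i =>
    (H i).mcont (h1 i) (h2 i) (h3 i)
  obtain ⟨θ, φ, h0, hφ, h⟩ := common_sector (σ := 1 / 2) (by norm_num) (fun i => Ph (F i))
    (fun i w hw => (hM i).order_ne (H i).ns.esys hw) (fun i w hw => (hM i).mero w hw)
    (fun i => (hM i).near (H i).ns.esys)
    (fun i w hw => MCont_far (H i).ns.esys (by norm_num) (hM i) hw)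
  obtain ⟨k, τ, hk, hin⟩ := choose_k h0 hφ
  exact ⟨k, τ, hk, fun i => (H i).law_sector (h1 i) (h2 i) (h3 i) (hm i) h0 hφ (h i) hk τ hin⟩

/-- the order at `1/2` is finite -/
theorem Par.order_ne (H : Par P α) {F : ℂ → ℂ} (h1 : ∀ s : ℂ, 1 / 2 < s.re → MeromorphicAt F s)
    (h2 : MeromorphicAt F (1 / 2)) (h3 : ∀ s : ℂ, 1 < s.re → HasProd (loc P α s) (F s)) :
    ∃ m : ℤ, meromorphicOrderAt F (1 / 2) = m := by
  have hM := H.mcont h1 h2 h3
  obtain ⟨ρ, hρ, hn⟩ := hM.near H.ns.esys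
  have h4 : meromorphicOrderAt (Ph F) 0 ≠ ⊤ := by
    rw [meromorphicOrderAt_ne_top_iff_eventually_ne_zero hM.vert, eventually_nhdsWithin_iff,
      Metric.eventually_nhds_iff]
    exact ⟨ρ, hρ, fun w hw hw0 => (hn w hw0 (by rwa [dist_zero_right] at hw)).2⟩
  have h5 : meromorphicOrderAt F (1 / 2) ≠ ⊤ := by
    intro hc
    rw [Ph_order h2, hc] at h4
    simp at h4
  obtain ⟨m, hm⟩ := WithTop.ne_top_iff_exists.1 h5
  exact ⟨m, hm.symm⟩

end Pool.Agent.D0H40.AR
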