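import Pool.Agent.D0H40.AR.Law2

/-! Other points of the critical line, and finitely many families of parameters. -/

set_option autoImplicit false

namespace Pool.Agent.D0H40.AR

open Complex MeasureTheory Filter Topology Set
open Pool.Agent.D0H40.CX
open Pool.Agent.W401.Cheb (pr M mem_pr tendsto_pc)
open scoped ComplexConjugate

variable {G : ℕ → Prop} {d : ℕ} {α : ℕ → Fin d → ℂ} {k : ℝ}

/-! ### Shifts -/

/-- the parameters of the shifted L-function -/
noncomputable def sh (γ : ℝ) (α : ℕ → Fin d → ℂ) (p : ℕ) (j : Fin d) : ℂ := α p j * (p : ℂ) ^ (-(γ * I))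

theorem norm_shift (γ : ℝ) {p : ℕ} (hp : 0 < p) : ‖(p : ℂ) ^ (-(γ * I))‖ = 1 := by
  have h1 : ((p : ℝ) : ℂ) = (p : ℂ) := by push_cast; rfl
  rw [← h1, Complex.norm_cpow_eq_rpow_re_of_pos (by exact_mod_cast hp)]
  have : (-(γ * I : ℂ)).re = 0 := by simp
  rw [this, Real.rpow_zero]

theorem Par.shift (H : Par G α) (γ : ℝ) : Par G (sh γ α) where
  prime := H.prime
  five := H.five
  unit := fun p hp j => by
    have h5 := H.five p hp
    unfold sh
    rw [norm_mul, H.unit p hp j, norm_shift γ (by omega), one_mul]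

theorem loc_shift (hG : ∀ p, G p → 0 < p) (γ : ℝ) (s : ℂ) : loc G (sh γ α) s = loc G α (s + γ * I) := by
  funext p
  unfold loc
  by_cases hp : G p
  · rw [if_pos hp, if_pos hp]
    congr 1
    refine Finset.prod_congr rfl fun j _ => ?_
    have hn0 : (p : ℂ) ≠ 0 := by exact_mod_cast (hG p hp).ne'
    unfold sh
    rw [neg_add, Complex.cpow_add _ _ hn0]
    ring
  · rw [if_neg hp, if_neg hp]

theorem sh_sq (γ : ℝ) {p : ℕ} (hp : 0 < p) (j : Fin d) :
    sh γ α p j ^ 2 = α p j ^ 2 * (p : ℂ) ^ (-(((2 * γ : ℝ) : ℂ) * I)) := by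
  unfold sh
  rw [mul_pow, ← Complex.cpow_nat_mul]
  congr 2
  push_cast
  ring

theorem bG_shift (hG : ∀ p, G p → 0 < p) (γ : ℝ) {c : ℕ → ℂ}
    (hc : ∀ p, c p = (open Classical in if G p then ∑ j, α p j ^ 2 else 0)) :
    bG G (sh γ α) = fun p => (c p * (p : ℂ) ^ (-(((2 * γ : ℝ) : ℂ) * I))).re := by
  funext p
  unfold bG
  rw [hc]
  by_cases hp : G p
  · rw [if_pos hp, if_pos hp]
    unfold bsq
    rw [Finset.sum_mul]
    congr 1
    exact Finset.sum_congr rfl fun j _ => sh_sq γ (hG p hp) j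
  · rw [if_neg hp, if_neg hp, zero_mul, Complex.zero_re]

/-! ### Finitely many families -/

section Tot

variable {n : ℕ} {e : Fin n → ℕ} {β : (i : Fin n) → ℕ → Fin (e i) → ℂ}

/-- the parameters of all the families -/
noncomputable def tot (β : (i : Fin n) → ℕ → Fin (e i) → ℂ) (p : ℕ) (j : Fin (∑ i, e i)) : ℂ :=
  β (finSigmaFinEquiv.symm j).1 p (finSigmaFinEquiv.symm j).2

theorem tot_prod {R : Type} [CommMonoid R] (f : ℂ → R) (p : ℕ) :
    ∏ j, f (tot β p j) = ∏ i, ∏ j, f (β i p j) := by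
  rw [← Equiv.prod_comp finSigmaFinEquiv, Fintype.prod_sigma]
  refine Finset.prod_congr rfl fun i _ => Finset.prod_congr rfl fun j _ => ?_
  unfold tot
  rw [Equiv.symm_apply_apply]

theorem tot_sum {R : Type} [AddCommMonoid R] (f : ℂ → R) (p : ℕ) :
    ∑ j, f (tot β p j) = ∑ i, ∑ j, f (β i p j) := by
  rw [← Equiv.sum_comp finSigmaFinEquiv, Fintype.sum_sigma]
  refine Finset.sum_congr rfl fun i _ => Finset.sum_congr rfl fun j _ => ?_
  unfold tot
  rw [Equiv.symm_apply_apply]

theorem tot_par (hG : ∀ p, G p → p.Prime ∧ 5 ≤ p) (H : ∀ i, Par G (β i)) : Par G (tot β) where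
  prime := fun p hp => (hG p hp).1
  five := fun p hp => (hG p hp).2
  unit := fun p hp _ => (H _).unit p hp _

theorem tot_Lw (k τ X : ℝ) : Lw G (tot β) k τ X = ∑ i, Lw G (β i) k τ X := by
  unfold Lw
  rw [Finset.sum_comm]
  refine Finset.sum_congr rfl fun p _ => ?_
  rw [← Finset.mul_sum]
  congr 1
  unfold lsum
  rw [tot_sum (fun a => Real.log ‖1 - a * dn p‖)]
  push_cast
  rfl

theorem tot_Sw (k τ X : ℝ) : Sw G (tot β) k τ X = ∑ i, Sw G (β i) k τ X := by
  unfold Sw
  rw [Finset.sum_comm]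
  refine Finset.sum_congr rfl fun p _ => ?_
  rw [← Finset.mul_sum]
  congr 1
  unfold ssum
  rw [tot_sum (fun a => a)]
  simp only [Complex.re_sum, Finset.sum_mul]
  push_cast
  rfl

theorem tot_loc (s : ℂ) (p : ℕ) : loc G (tot β) s p = ∏ i, loc G (β i) s p := by
  unfold loc
  by_cases hp : G p
  · simp only [if_pos hp]
    rw [tot_prod (fun a => 1 - a * (p : ℂ) ^ (-s)), Finset.prod_inv_distrib]
  · simp only [if_neg hp, Finset.prod_const_one]

theorem tot_bG (p : ℕ) : bG G (tot β) p = ∑ i, bG G (β i) p := by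
  unfold bG
  by_cases hp : G p
  · simp only [if_pos hp]
    unfold bsq
    rw [tot_sum (fun a => a ^ 2), Complex.re_sum]
  · simp only [if_neg hp, Finset.sum_const_zero]

theorem ML_sum {ι : Type} (s : Finset ι) (b : ι → ℕ → ℝ) (h : ∀ i ∈ s, ML (b i) 0) :
    ML (fun p => ∑ i ∈ s, b i p) 0 := by
  classical
  induction s using Finset.induction with
  | empty =>
    intro ε hε
    refine ⟨ε * |Real.log (Real.log 3)|, fun N hN => ?_⟩
    have h3 : (3 : ℝ) ≤ N := by exact_mod_cast hN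
    have hl : 1 ≤ Real.log 3 := by
      rw [Real.le_log_iff_exp_le (by norm_num)]
      have := Real.exp_one_lt_d9
      linarith
    have hll : 0 ≤ Real.log (Real.log N) :=
      Real.log_nonneg (hl.trans (Real.log_le_log (by norm_num) h3))
    simp only [Finset.sum_empty, zero_div, Finset.sum_const_zero, zero_mul, sub_zero, abs_zero]
    positivity
  | insert i s hi ih =>
    intro ε hε
    obtain ⟨C₁, h1⟩ := h i (Finset.mem_insert_self i s) (ε / 2) (half_pos hε)
    obtain ⟨C₂, h2⟩ := ih (fun j hj => h j (Finset.mem_insert_of_mem hj)) (ε / 2) (half_pos hε)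
    refine ⟨C₁ + C₂, fun N hN => ?_⟩
    have h3 := h1 N hN
    have h4 := h2 N hN
    have e1 : ∑ p ∈ pr N, (∑ j ∈ insert i s, b j p) / p =
        ∑ p ∈ pr N, b i p / p + ∑ p ∈ pr N, (∑ j ∈ s, b j p) / p := by
      rw [← Finset.sum_add_distrib]
      refine Finset.sum_congr rfl fun p _ => ?_
      rw [Finset.sum_insert hi, add_div]
    simp only [zero_mul, sub_zero] at h3 h4 ⊢
    rw [e1]
    refine (abs_add_le _ _).trans ?_
    linarith

end Tot

/-! ### The order at a point of the critical line -/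

theorem mero_line {F : ℂ → ℂ} (h : ∀ s : ℂ, 1 / 2 ≤ s.re → MeromorphicAt F s) (γ : ℝ) {s : ℂ}
    (hs : 1 / 2 ≤ s.re) : MeromorphicAt (fun s => F (s + γ * I)) s := by
  have h1 : MeromorphicAt F (s + γ * I) := h _ (by simpa using hs)
  exact h1.comp_analyticAt (f := F) (g := fun s : ℂ => s + γ * I) (by fun_prop)

theorem order_line (F : ℂ → ℂ) (γ : ℝ) (s : ℂ) :
    meromorphicOrderAt (fun s => F (s + γ * I)) s = meromorphicOrderAt F (s + γ * I) := by
  have h1 : AnalyticAt ℂ (fun s : ℂ => s + γ * I) s := by fun_prop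
  have h2 : deriv (fun s : ℂ => s + γ * I) s ≠ 0 := by
    rw [deriv_add_const, deriv_id'']
    exact one_ne_zero
  exact meromorphicOrderAt_comp_of_deriv_ne_zero (f := F) h1 h2

end Pool.Agent.D0H40.AR
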