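import Pool.Agent.D0H40.AR.Unit

/-! The finite sums and the Euler product of a family of unitary parameters. -/

set_option autoImplicit false

namespace Pool.Agent.D0H40.AR

open Complex MeasureTheory Filter Topology Set
open Pool.Agent.D0H40.CX
open Pool.Agent.D0H40.KX
open scoped ComplexConjugate

variable {G : ℕ → Prop} {d : ℕ} {α : ℕ → Fin d → ℂ}

/-- the weight -/
noncomputable def wt (k τ X : ℝ) (p : ℕ) : ℂ :=
  exp (-((1 + τ * I) * ((Real.log p) ^ k / (Real.log X) ^ (k - 1) : ℝ)))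

theorem EE_wt (k τ X : ℝ) (p : ℕ) : EE k (kap k τ (Real.log X)) (Real.log p) = wt k τ X p := by
  unfold EE kap wt
  congr 2
  rw [mul_assoc, ← Complex.ofReal_mul, div_eq_mul_inv, mul_comm (((Real.log X) ^ (k - 1))⁻¹)]

open Classical in
/-- the primes of the family up to `X` -/
noncomputable def up (G : ℕ → Prop) (X : ℝ) : Finset ℕ := (Finset.range (⌊X⌋₊ + 1)).filter G

theorem mem_up {X : ℝ} {p : ℕ} : p ∈ up G X ↔ p ≤ ⌊X⌋₊ ∧ G p := by
  classical
  unfold up
  rw [Finset.mem_filter, Finset.mem_range]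
  constructor <;> rintro ⟨h1, h2⟩ <;> exact ⟨by omega, h2⟩

theorem one_sub_sq {a : ℂ} (ha : ‖a‖ = 1) (δ : ℝ) : 1 - 2 * a.re * δ + δ ^ 2 = ‖1 - a * δ‖ ^ 2 := by
  have h1 : a.re * a.re + a.im * a.im = 1 := by
    rw [← Complex.normSq_apply, ← Complex.sq_norm, ha, one_pow]
  rw [Complex.sq_norm, Complex.normSq_apply]
  simp only [Complex.sub_re, Complex.one_re, Complex.mul_re, Complex.ofReal_re, Complex.ofReal_im,
    mul_zero, sub_zero, Complex.sub_im, Complex.one_im, Complex.mul_im, zero_add, zero_sub]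
  nlinarith [h1]

theorem Par.cv_eq (H : Par G α) (v : PA G d) :
    cv (qA G d) (tA G α) v = 2 * Real.log ‖1 - α v.1.1 v.2 * dn v.1.1‖ := by
  unfold cv c2 tA qA
  rw [one_sub_sq (H.unit v.1.1 v.1.2 v.2), Real.log_pow]
  norm_num

/-- the sum of the logarithms -/
noncomputable def lsum (α : ℕ → Fin d → ℂ) (p : ℕ) : ℝ := ∑ j, Real.log ‖1 - α p j * dn p‖

theorem Par.Wn_eq (H : Par G α) (k τ X : ℝ) :
    Wn (qA G d) (tA G α) k τ X = 2 * ∑ p ∈ up G X, wt k τ X p * (lsum α p : ℝ) := by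
  classical
  have hle : ∀ v : PA G d, ((qA G d v : ℝ) ≤ X ↔ v.1.1 ∈ Finset.range (⌊X⌋₊ + 1)) := by
    intro v
    have h5 := H.five v.1.1 v.1.2
    have h0 : qA G d v ≠ 0 := by
      have : qA G d v = v.1.1 := rfl
      omega
    rw [Finset.mem_range, Nat.lt_add_one_iff]
    exact (Nat.le_floor_iff' h0).symm
  set T : Finset {p // G p} := (Finset.range (⌊X⌋₊ + 1)).subtype G with hT
  have hsup : ∀ v ∉ T ×ˢ (Finset.univ : Finset (Fin d)), (if (qA G d v : ℝ) ≤ X then
      (cv (qA G d) (tA G α) v : ℂ) * EE k (kap k τ (Real.log X)) (Real.log (qA G d v)) else 0) = 0 := by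
    intro v hv
    refine if_neg fun hc => hv ?_
    rw [Finset.mem_product]
    exact ⟨Finset.mem_subtype.2 ((hle v).1 hc), Finset.mem_univ _⟩
  unfold Wn
  rw [tsum_eq_sum hsup, Finset.sum_product]
  have h1 : ∀ p ∈ T, ∑ j : Fin d, (if (qA G d (p, j) : ℝ) ≤ X then
      (cv (qA G d) (tA G α) (p, j) : ℂ) * EE k (kap k τ (Real.log X)) (Real.log (qA G d (p, j))) else 0) =
      2 * (wt k τ X p * (lsum α p : ℝ)) := by
    intro p hp
    have hp' := Finset.mem_subtype.1 hp
    have h2 : ∀ j : Fin d, (if (qA G d (p, j) : ℝ) ≤ X then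
      (cv (qA G d) (tA G α) (p, j) : ℂ) * EE k (kap k τ (Real.log X)) (Real.log (qA G d (p, j))) else 0) =
      2 * (wt k τ X p * ((Real.log ‖1 - α p j * dn p‖ : ℝ) : ℂ)) := by
      intro j
      rw [if_pos ((hle (p, j)).2 hp'), H.cv_eq, ← EE_wt]
      push_cast
      simp only [qA]
      ring
    rw [Finset.sum_congr rfl fun j _ => h2 j, ← Finset.mul_sum, ← Finset.mul_sum]
    unfold lsum
    push_cast
    rfl
  rw [Finset.sum_congr rfl h1, ← Finset.mul_sum]
  congr 1
  unfold up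
  rw [hT, Finset.sum_subtype_eq_sum_filter (s := Finset.range (⌊X⌋₊ + 1)) (p := G)
    (f := fun p => wt k τ X p * (lsum α p : ℝ))]

/-! ### The Euler product -/

theorem dn_xq {n : ℕ} (hn : 0 < n) (w : ℂ) : (dn n : ℂ) * xq n w = (n : ℂ) ^ (-(1 / 2 + w)) := by
  have hn0 : (n : ℂ) ≠ 0 := by exact_mod_cast hn.ne'
  rw [xq_cpow hn, neg_add, Complex.cpow_add _ _ hn0]
  congr 1
  unfold dn
  rw [Complex.ofReal_cpow (Nat.cast_nonneg _)]
  push_cast
  rfl

/-- the local factor -/
noncomputable def loc (G : ℕ → Prop) (α : ℕ → Fin d → ℂ) (s : ℂ) (p : ℕ) : ℂ :=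
  open Classical in if G p then (∏ j, (1 - α p j * (p : ℂ) ^ (-s)))⁻¹ else 1

theorem Par.Ev_eq (H : Par G α) (v : PA G d) (w : ℂ) : Ev (qA G d) (tA G α) v w =
    (1 - α v.1.1 v.2 * (v.1.1 : ℂ) ^ (-(1 / 2 + w)))⁻¹ *
      (1 - conj (α v.1.1 v.2) * (v.1.1 : ℂ) ^ (-(1 / 2 + w)))⁻¹ := by
  have h5 := H.five v.1.1 v.1.2
  have hu : α v.1.1 v.2 * conj (α v.1.1 v.2) = 1 := by
    rw [Complex.mul_conj, ← Complex.sq_norm, H.unit v.1.1 v.1.2 v.2]
    norm_num
  have ha : α v.1.1 v.2 + conj (α v.1.1 v.2) = 2 * ((α v.1.1 v.2).re : ℂ) := by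
    rw [Complex.add_conj]
    push_cast
    ring
  have hsq : ((dn v.1.1 : ℝ) : ℂ) ^ 2 = (v.1.1 : ℂ)⁻¹ := by
    rw [← Complex.ofReal_pow, dn_sq]
    push_cast
    rfl
  unfold Ev
  rw [← dn_xq (by omega), ← mul_inv]
  congr 1
  have h1 : (qA G d v : ℂ) = (v.1.1 : ℂ) := rfl
  have h2 : qA G d v = v.1.1 := rfl
  rw [h2, ← hsq]
  unfold tA
  push_cast
  linear_combination (dn v.1.1 * xq v.1.1 w) * ha - (dn v.1.1 * xq v.1.1 w) ^ 2 * hu

theorem Par.prod_En (H : Par G α) {w : ℂ} (hw : 1 / 2 < w.re) :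
    HasProd (fun p => loc G α (1 / 2 + w) p * conj (loc G α (conj (1 / 2 + w)) p))
      (En (qA G d) (tA G α) w) := by
  classical
  have h1 := H.ns.hasProd hw
  rw [H.ns.En_eq hw] at h1
  have h2 : HasProd (fun p : {p // G p} => ∏ j : Fin d, Ev (qA G d) (tA G α) (p, j) w)
      (En (qA G d) (tA G α) w) := by
    refine h1.prod_fiberwise fun p => ?_
    exact hasProd_fintype _
  have h3 : (fun p : {p // G p} => ∏ j : Fin d, Ev (qA G d) (tA G α) (p, j) w) =
      (fun p => loc G α (1 / 2 + w) p * conj (loc G α (conj (1 / 2 + w)) p)) ∘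
        ((↑) : {p // G p} → ℕ) := by
    funext p
    have h5 := H.five p.1 p.2
    simp only [Function.comp_apply]
    unfold loc
    rw [if_pos p.2, if_pos p.2, map_inv₀, map_prod, ← Finset.prod_inv_distrib, ← Finset.prod_inv_distrib,
      ← Finset.prod_mul_distrib]
    refine Finset.prod_congr rfl fun j _ => ?_
    rw [H.Ev_eq (p, j) w]
    congr 2
    simp only [map_sub, map_one, map_mul]
    congr 2
    have hn0 : ((p : ℕ) : ℂ) ≠ 0 := by exact_mod_cast (by omega : (p : ℕ) ≠ 0)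
    rw [← map_neg, Complex.cpow_conj _ _ (by
      rw [Complex.natCast_arg]
      exact Real.pi_pos.ne), Complex.conj_conj, map_natCast]
  rw [h3] at h2
  have h4 := (hasProd_subtype_iff_mulIndicator (s := {p | G p})).1 h2
  have h5 : Set.mulIndicator {p | G p}
      (fun p => loc G α (1 / 2 + w) p * conj (loc G α (conj (1 / 2 + w)) p)) =
      fun p => loc G α (1 / 2 + w) p * conj (loc G α (conj (1 / 2 + w)) p) := by
    funext p
    rw [Set.mulIndicator_apply]
    by_cases hp : G p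
    · rw [if_pos (show p ∈ {p | G p} from hp)]
    · rw [if_neg (show p ∉ {p | G p} from hp)]
      unfold loc
      rw [if_neg hp, if_neg hp, map_one, mul_one]
  rw [h5] at h4
  exact h4

/-- the product of the continuation and its conjugate -/
theorem Par.En_of (H : Par G α) {F : ℂ → ℂ}
    (hF : ∀ s : ℂ, 1 < s.re → HasProd (loc G α s) (F s)) {w : ℂ} (hw : 1 / 2 < w.re) :
    F (1 / 2 + w) * conj (F (conj (1 / 2 + w))) = En (qA G d) (tA G α) w := by
  have hre : 1 < (1 / 2 + w).re := by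
    have : ((1 : ℂ) / 2).re = 1 / 2 := by norm_num
    rw [Complex.add_re, this]
    linarith
  have h1 := hF (1 / 2 + w) hre
  have h2 := hF (conj (1 / 2 + w)) (by rwa [Complex.conj_re])
  have h3 := h2.map (starRingEnd ℂ) Complex.continuous_conj
  have h4 := h1.mul h3
  exact h4.unique (H.prod_En hw)

/-! ### Reflection of meromorphic functions -/

theorem mero_conj {g : ℂ → ℂ} {z : ℂ} (h : MeromorphicAt g (conj z)) :
    MeromorphicAt (fun s => conj (g (conj s))) z := by
  obtain ⟨n, hn⟩ := h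
  refine ⟨n, ?_⟩
  have h1 : (fun s => (s - z) ^ n • conj (g (conj s))) =
      fun s => conj ((fun s => (s - conj z) ^ n • g s) (conj s)) := by
    funext s
    simp only [smul_eq_mul, map_mul, map_pow, map_sub, Complex.conj_conj]
  rw [h1, Complex.analyticAt_iff_eventually_differentiableAt]
  have h2 : ∀ᶠ w in 𝓝 (conj z), DifferentiableAt ℂ (fun s => (s - conj z) ^ n • g s) w :=
    hn.eventually_analyticAt.mono fun w hw => hw.differentiableAt
  filter_upwards [(Complex.continuous_conj.tendsto z).eventually h2] with w hw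
  have h3 := DifferentiableAt.conj_conj (𝕜 := ℂ) hw
  rw [Complex.conj_conj] at h3
  exact h3

theorem order_conj {f : ℂ → ℂ} {z : ℂ} (hf : MeromorphicAt f (conj z)) :
    meromorphicOrderAt (fun w => conj (f (conj w))) z = meromorphicOrderAt f (conj z) := by
  have hcc : Tendsto (fun w : ℂ => conj w) (𝓝[≠] z) (𝓝[≠] (conj z)) := by
    rw [tendsto_nhdsWithin_iff]
    refine ⟨(Complex.continuous_conj.tendsto z).mono_left nhdsWithin_le_nhds, ?_⟩
    filter_upwards [self_mem_nhdsWithin] with w hw h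
    exact hw ((starRingEnd ℂ).injective h)
  by_cases htop : meromorphicOrderAt f (conj z) = ⊤
  · rw [htop, meromorphicOrderAt_eq_top_iff]
    rw [meromorphicOrderAt_eq_top_iff] at htop
    filter_upwards [hcc.eventually htop] with w hw
    rw [hw, map_zero]
  · obtain ⟨g, hg, hg0, hgG⟩ := (meromorphicOrderAt_ne_top_iff hf).1 htop
    set m : ℤ := (meromorphicOrderAt f (conj z)).untop₀ with hm
    have h1 : meromorphicOrderAt f (conj z) = (m : WithTop ℤ) := by
      rw [hm, WithTop.coe_untop₀_of_ne_top htop]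
    rw [h1, meromorphicOrderAt_eq_int_iff (mero_conj hf)]
    refine ⟨fun w => conj (g (conj w)), ?_, ?_, ?_⟩
    · rw [Complex.analyticAt_iff_eventually_differentiableAt]
      have h2 : ∀ᶠ w in 𝓝 (conj z), DifferentiableAt ℂ g w :=
        hg.eventually_analyticAt.mono fun w hw => hw.differentiableAt
      filter_upwards [(Complex.continuous_conj.tendsto z).eventually h2] with w hw
      have h3 := DifferentiableAt.conj_conj (𝕜 := ℂ) hw
      rw [Complex.conj_conj] at h3
      exact h3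
    · exact (map_ne_zero _).2 hg0
    · filter_upwards [hcc.eventually hgG] with w hw
      simp only [hw, smul_eq_mul, map_mul, map_zpow₀, map_sub, Complex.conj_conj]

theorem half_shift (F : ℂ → ℂ) :
    meromorphicOrderAt (fun w => F (1 / 2 + w)) 0 = meromorphicOrderAt F (1 / 2) := by
  have h1 : AnalyticAt ℂ (fun w : ℂ => 1 / 2 + w) 0 := by fun_prop
  have h2 : deriv (fun w : ℂ => 1 / 2 + w) 0 ≠ 0 := by
    rw [deriv_const_add, deriv_id'']
    exact one_ne_zero
  have h3 := meromorphicOrderAt_comp_of_deriv_ne_zero (f := F) h1 h2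
  rw [add_zero] at h3
  exact h3

theorem mero_half {F : ℂ → ℂ} {w : ℂ} (h : MeromorphicAt F (1 / 2 + w)) :
    MeromorphicAt (fun w => F (1 / 2 + w)) w :=
  h.comp_analyticAt (f := F) (g := fun w : ℂ => 1 / 2 + w) (by fun_prop)

/-- the product of the continuation and its conjugate, as a function of `w = s - 1/2` -/
noncomputable def Ph (F : ℂ → ℂ) (w : ℂ) : ℂ := F (1 / 2 + w) * conj (F (conj (1 / 2 + w)))

theorem conj_half (w : ℂ) : conj (1 / 2 + w) = 1 / 2 + conj w := by
  rw [map_add, map_div₀, map_one, map_ofNat]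

theorem Ph_eq (F : ℂ → ℂ) : Ph F =
    (fun w => F (1 / 2 + w)) * fun w => conj ((fun w => F (1 / 2 + w)) (conj w)) := by
  funext w
  unfold Ph
  rw [conj_half]
  rfl

theorem Par.mcont (H : Par G α) {F : ℂ → ℂ} (h1 : ∀ s : ℂ, 1 / 2 < s.re → MeromorphicAt F s)
    (h2 : MeromorphicAt F (1 / 2)) (h3 : ∀ s : ℂ, 1 < s.re → HasProd (loc G α s) (F s)) :
    MCont (En (qA G d) (tA G α)) (1 / 2) (Ph F) where
  mero := fun w hw => by
    have hr : ((1 : ℂ) / 2).re = 1 / 2 := by norm_num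
    rw [Ph_eq]
    refine (mero_half (h1 _ ?_)).mul (mero_conj (mero_half (h1 _ ?_)))
    · rw [Complex.add_re, hr]
      linarith
    · rw [Complex.add_re, hr, Complex.conj_re]
      linarith
  vert := by
    rw [Ph_eq]
    refine (mero_half (by rwa [add_zero])).mul (mero_conj (mero_half ?_))
    rwa [map_zero, add_zero]
  eq := fun w hw => H.En_of h3 hw

theorem Ph_order {F : ℂ → ℂ} (h2 : MeromorphicAt F (1 / 2)) :
    meromorphicOrderAt (Ph F) 0 = meromorphicOrderAt F (1 / 2) + meromorphicOrderAt F (1 / 2) := by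
  have h3 : MeromorphicAt (fun w => F (1 / 2 + w)) 0 := mero_half (by rwa [add_zero])
  have h4 : MeromorphicAt (fun w => F (1 / 2 + w)) (conj 0) := by rwa [map_zero]
  rw [Ph_eq, meromorphicOrderAt_mul h3 (mero_conj h4), order_conj h4, map_zero, half_shift]

end Pool.Agent.D0H40.AR
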