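import Pool.Agent.D0H40.CX.NFInst
import Pool.Agent.D0H40.CX.Mero3

/-! Euler products with unitary parameters over the rational primes. -/

set_option autoImplicit false

namespace Pool.Agent.D0H40.AR

open Complex MeasureTheory Filter Topology Set NumberField IsDedekindDomain
open Pool.Agent.D0H40.CX
open Pool.Agent.H921R2.TatePole (nm two_le_nm)
open scoped ComplexConjugate

/-! ### The logarithmic sum over the rational primes -/

theorem absNorm_p (p : ℕ) : Ideal.absNorm (Ideal.span {(p : 𝓞 ℚ)}) = p := by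
  rw [Ideal.absNorm_span_natCast, RingOfIntegers.rank, Module.finrank_self, pow_one]

/-- the prime ideal `(p)` of `𝓞 ℚ` -/
noncomputable def vp (p : Nat.Primes) : HeightOneSpectrum (𝓞 ℚ) where
  asIdeal := Ideal.span {(((p : ℕ)) : 𝓞 ℚ)}
  isPrime := Ideal.isPrime_of_irreducible_absNorm (by
    rw [absNorm_p]
    exact p.2)
  ne_bot := by
    intro h
    have h1 := absNorm_p (p : ℕ)
    rw [h, Ideal.absNorm_bot] at h1
    exact p.2.ne_zero h1.symm

theorem nm_vp (p : Nat.Primes) : nm (vp p) = p := absNorm_p p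

theorem vp_inj : Function.Injective vp := by
  intro p p' h
  have h1 := nm_vp p
  rw [h, nm_vp] at h1
  exact Subtype.ext h1.symm

theorem log_sum_Q : ∃ C σ₀ : ℝ, 0 < σ₀ ∧ ∀ σ : ℝ, 0 < σ → σ < σ₀ →
    Summable (fun p : Nat.Primes => Real.log (p : ℕ) * ((p : ℕ) : ℝ) ^ (-(1 + σ))) ∧
    σ * ∑' p : Nat.Primes, Real.log (p : ℕ) * ((p : ℕ) : ℝ) ^ (-(1 + σ)) ≤ C := by
  obtain ⟨C, σ₀, hσ₀, h⟩ := log_sum_V (K := ℚ)
  refine ⟨C, σ₀, hσ₀, fun σ h1 h2 => ?_⟩
  obtain ⟨hs, hle⟩ := h σ h1 h2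
  set g : HeightOneSpectrum (𝓞 ℚ) → ℝ := fun v => Real.log (nm v) * (nm v : ℝ) ^ (-(1 + σ)) with hg
  have e : (fun p : Nat.Primes => Real.log (p : ℕ) * ((p : ℕ) : ℝ) ^ (-(1 + σ))) = g ∘ vp := by
    funext p
    simp only [hg, Function.comp_apply, nm_vp]
  have hg0 : ∀ v, 0 ≤ g v := by
    intro v
    have hv := two_le_nm v
    have hp1 : (1 : ℝ) ≤ nm v := by exact_mod_cast (by omega : 1 ≤ nm v)
    have := Real.log_nonneg hp1
    rw [hg]
    positivity
  rw [e]
  refine ⟨hs.comp_injective vp_inj, le_trans (mul_le_mul_of_nonneg_left ?_ h1.le) hle⟩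
  exact tsum_comp_le_tsum_of_inj hs hg0 vp_inj

/-! ### The family -/

/-- pairs of a prime and an index -/
abbrev PA (G : ℕ → Prop) (d : ℕ) : Type := {p : ℕ // G p} × Fin d

variable {G : ℕ → Prop} {d : ℕ} {α : ℕ → Fin d → ℂ}

/-- the prime -/
def qA (G : ℕ → Prop) (d : ℕ) (v : PA G d) : ℕ := v.1.1

/-- the trace of the parameter and its conjugate -/
noncomputable def tA (G : ℕ → Prop) (α : ℕ → Fin d → ℂ) (v : PA G d) : ℝ :=
  2 * (α v.1.1 v.2).re * dn v.1.1

/-- the assumptions on the primes and on the parameters -/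
structure Par (G : ℕ → Prop) (α : ℕ → Fin d → ℂ) : Prop where
  prime : ∀ p, G p → p.Prime
  five : ∀ p, G p → 5 ≤ p
  unit : ∀ p, G p → ∀ j, ‖α p j‖ = 1

theorem Par.log_sum (H : Par G α) : ∃ C σ₀ : ℝ, 0 < σ₀ ∧ ∀ σ : ℝ, 0 < σ → σ < σ₀ →
    Summable (fun p : {p // G p} => Real.log (p : ℕ) * ((p : ℕ) : ℝ) ^ (-(1 + σ))) ∧
    σ * ∑' p : {p // G p}, Real.log (p : ℕ) * ((p : ℕ) : ℝ) ^ (-(1 + σ)) ≤ C := by
  obtain ⟨C, σ₀, hσ₀, h⟩ := log_sum_Q
  refine ⟨C, σ₀, hσ₀, fun σ h1 h2 => ?_⟩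
  obtain ⟨hs, hle⟩ := h σ h1 h2
  set i : {p // G p} → Nat.Primes := fun p => ⟨p.1, H.prime p.1 p.2⟩ with hi
  have hinj : Function.Injective i := by
    intro p p' hpp
    exact Subtype.ext (congrArg (fun x : Nat.Primes => (x : ℕ)) hpp)
  set g : Nat.Primes → ℝ := fun p => Real.log (p : ℕ) * ((p : ℕ) : ℝ) ^ (-(1 + σ)) with hg
  have hg0 : ∀ v, 0 ≤ g v := by
    intro v
    have hp1 : (1 : ℝ) ≤ (v : ℕ) := by exact_mod_cast v.2.one_le
    have := Real.log_nonneg hp1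
    rw [hg]
    positivity
  have e : (fun p : {p // G p} => Real.log (p : ℕ) * ((p : ℕ) : ℝ) ^ (-(1 + σ))) = g ∘ i := rfl
  rw [e]
  refine ⟨hs.comp_injective hinj, le_trans (mul_le_mul_of_nonneg_left ?_ h1.le) hle⟩
  exact tsum_comp_le_tsum_of_inj hs hg0 hinj

theorem Par.ns (H : Par G α) : NS (qA G d) (tA G α) d where
  five := fun v => H.five v.1.1 v.1.2
  mult := fun n s hs => by
    have h : Set.InjOn (fun v : PA G d => v.2) s := by
      intro v hv w hw hvw
      have h1 : v.1.1 = w.1.1 := (hs v hv).trans (hs w hw).symm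
      exact Prod.ext (Subtype.ext h1) hvw
    have h2 := Finset.card_le_card_of_injOn (s := s) (t := Finset.univ) (fun v : PA G d => v.2)
      (fun v _ => Finset.mem_coe.2 (Finset.mem_univ _)) h
    rwa [Finset.card_univ, Fintype.card_fin] at h2
  hasse := fun v => by
    have h1 := H.unit v.1.1 v.1.2 v.2
    have h2 := Complex.abs_re_le_norm (α v.1.1 v.2)
    have h3 := dn_nonneg v.1.1
    unfold tA qA
    rw [abs_mul, abs_mul, abs_two, abs_of_nonneg h3]
    refine mul_le_mul_of_nonneg_right ?_ h3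
    linarith
  lg := by
    obtain ⟨C, σ₀, hσ₀, h⟩ := H.log_sum
    refine ⟨d * C, σ₀, hσ₀, fun σ h1 h2 => ?_⟩
    obtain ⟨hs, hle⟩ := h σ h1 h2
    set g : {p // G p} → ℝ := fun p => Real.log (p : ℕ) * ((p : ℕ) : ℝ) ^ (-(1 + σ)) with hg
    have e : (fun v : PA G d => Real.log (qA G d v) * (qA G d v : ℝ) ^ (-(1 + σ))) =
        fun v : PA G d => g v.1 * 1 := by
      funext v
      rw [mul_one]
      rfl
    have h1s : Summable fun _ : Fin d => (1 : ℝ) := Summable.of_finite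
    have hg0 : ∀ v, 0 ≤ g v := by
      intro v
      have hp1 : (1 : ℝ) ≤ (v : ℕ) := by
        have := H.five v.1 v.2
        exact_mod_cast (by omega : 1 ≤ (v : ℕ))
      have := Real.log_nonneg hp1
      rw [hg]
      positivity
    have hs2 : Summable fun v : PA G d => g v.1 * 1 :=
      hs.mul_of_nonneg h1s hg0 (fun _ => zero_le_one)
    rw [e]
    refine ⟨hs2, ?_⟩
    have e2 : ∑' v : PA G d, g v.1 * 1 = (∑' p, g p) * d := by
      have := hs.tsum_mul_tsum h1s hs2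
      rw [← this, tsum_fintype (f := fun _ : Fin d => (1 : ℝ))]
      simp
    rw [e2]
    calc σ * ((∑' p, g p) * d) = d * (σ * ∑' p, g p) := by ring
      _ ≤ d * C := mul_le_mul_of_nonneg_left hle (Nat.cast_nonneg _)

end Pool.Agent.D0H40.AR
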